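import Pool.Agent.H721CS.Circles

/-!
# Analytic functionals seen through their action on entire functions
-/

open Complex Set Metric Topology

namespace H721CS

variable {n : ℕ}

/-- `T` acts on functions; `Car T K` says that on entire functions `T` is represented, for every
open neighbourhood `ω` of `K`, by a continuous functional on `C(M)` with `M ⊆ ω` compact. -/
def Car (T : ((Fin n → ℂ) → ℂ) → ℂ) (K : Set (Fin n → ℂ)) : Prop :=
  ∀ ω : Set (Fin n → ℂ), IsOpen ω → K ⊆ ω → ∃ M : Set (Fin n → ℂ), IsCompact M ∧ M ⊆ ω ∧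
    ∃ Λ : C(M, ℂ) →L[ℂ] ℂ, ∀ f : C(Fin n → ℂ, ℂ), Differentiable ℂ f → T f = Λ (f.restrict M)

/-- multiplication of a functional by a function -/
def mulT (h : (Fin n → ℂ) → ℂ) (T : ((Fin n → ℂ) → ℂ) → ℂ) : ((Fin n → ℂ) → ℂ) → ℂ :=
  fun f => T (fun w => h w * f w)

lemma Car.mulT {T : ((Fin n → ℂ) → ℂ) → ℂ} {K : Set (Fin n → ℂ)} (hT : Car T K)
    {h : (Fin n → ℂ) → ℂ} (hh : Differentiable ℂ h) : Car (mulT h T) K := by
  intro ω hω hK
  obtain ⟨M, hM, hMω, Λ, hΛ⟩ := hT ω hω hK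
  have : CompactSpace M := isCompact_iff_compactSpace.1 hM
  refine ⟨M, hM, hMω, Λ.comp (ContinuousLinearMap.mul ℂ C(M, ℂ)
    ((⟨h, hh.continuous⟩ : C(Fin n → ℂ, ℂ)).restrict M)), ?_⟩
  intro f hf
  have := hΛ ((⟨h, hh.continuous⟩ : C(Fin n → ℂ, ℂ)) * f) (hh.mul hf)
  simp only [H721CS.mulT]
  exact this

lemma Car.mono {T : ((Fin n → ℂ) → ℂ) → ℂ} {K K' : Set (Fin n → ℂ)} (hT : Car T K)
    (h : K ⊆ K') : Car T K' := fun ω hω hK => hT ω hω (h.trans hK)

/-- basic estimate -/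
lemma Car.bound {T : ((Fin n → ℂ) → ℂ) → ℂ} {K : Set (Fin n → ℂ)} (hT : Car T K)
    (hK : IsCompact K) {P : Type*} [TopologicalSpace P] {q : P → (Fin n → ℂ) → ℂ}
    (hq : Continuous (fun x : P × (Fin n → ℂ) => q x.1 x.2))
    (hqd : ∀ p, Differentiable ℂ (q p)) {X : Set P} (hX : IsCompact X) {β : ℝ}
    (hβ : ∀ p ∈ X, ∀ w ∈ K, (q p w).re ≤ β) {δ : ℝ} (hδ : 0 < δ) :
    ∃ C : ℝ, 0 < C ∧ ∀ t : ℝ, 0 ≤ t → ∀ p ∈ X,
      ‖T (fun w => cexp (t * q p w))‖ ≤ C * Real.exp ((β + δ) * t) := by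
  have hopen : IsOpen {x : P × (Fin n → ℂ) | (q x.1 x.2).re < β + δ} :=
    isOpen_lt (Complex.continuous_re.comp hq) continuous_const
  obtain ⟨u, ω, hu, hω, hXu, hKω, huω⟩ := generalized_tube_lemma hX hK hopen
    (by rintro ⟨p, w⟩ ⟨hp, hw⟩; exact (hβ p hp w hw).trans_lt (by linarith))
  obtain ⟨M, hM, hMω, Λ, hΛ⟩ := hT ω hω hKω
  have : CompactSpace M := isCompact_iff_compactSpace.1 hM
  refine ⟨‖Λ‖ + 1, by positivity, ?_⟩
  intro t ht p hp
  have hc : Continuous (fun w => cexp (t * q p w)) :=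
    Complex.continuous_exp.comp (continuous_const.mul (hqd p).continuous)
  have hd : Differentiable ℂ (fun w => cexp (t * q p w)) :=
    Complex.differentiable_exp.comp ((differentiable_const _).mul (hqd p))
  have e := hΛ ⟨_, hc⟩ hd
  simp only [ContinuousMap.coe_mk] at e
  rw [e]
  refine (Λ.le_opNorm _).trans ?_
  have : ‖((⟨_, hc⟩ : C(Fin n → ℂ, ℂ)).restrict M)‖ ≤ Real.exp ((β + δ) * t) := by
    rw [ContinuousMap.norm_le _ (Real.exp_pos _).le]
    rintro ⟨w, hw⟩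
    simp only [ContinuousMap.restrict_apply, ContinuousMap.coe_mk, Complex.norm_exp]
    apply Real.exp_le_exp.2
    have h1 : (q p w).re < β + δ := huω (show (p, w) ∈ u ×ˢ ω from ⟨hXu hp, hMω hw⟩)
    simp only [Complex.mul_re, Complex.ofReal_re, Complex.ofReal_im, zero_mul, sub_zero]
    nlinarith
  calc ‖Λ‖ * _ ≤ ‖Λ‖ * Real.exp ((β + δ) * t) := mul_le_mul_of_nonneg_left this (norm_nonneg _)
    _ ≤ _ := by nlinarith [Real.exp_pos ((β + δ) * t)]

/-- holomorphy along lines of the value of `T` on exponentials of functions affine in the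
parameter -/
lemma Car.differentiable_line {T : ((Fin n → ℂ) → ℂ) → ℂ} {K : Set (Fin n → ℂ)} (hT : Car T K)
    {A B : (Fin n → ℂ) → ℂ} (hA : Differentiable ℂ A) (hB : Differentiable ℂ B) :
    Differentiable ℂ (fun τ : ℂ => T (fun w => cexp (A w + τ * B w))) := by
  obtain ⟨M, hM, -, Λ, hΛ⟩ := hT univ isOpen_univ (subset_univ _)
  have : CompactSpace M := isCompact_iff_compactSpace.1 hM
  set a : C(M, ℂ) := (⟨fun w => cexp (A w), Complex.continuous_exp.comp hA.continuous⟩ :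
    C(Fin n → ℂ, ℂ)).restrict M with ha
  set b : C(M, ℂ) := (⟨B, hB.continuous⟩ : C(Fin n → ℂ, ℂ)).restrict M with hb
  have key : (fun τ : ℂ => T (fun w => cexp (A w + τ * B w))) =
      fun τ : ℂ => Λ (a * NormedSpace.exp (τ • b)) := by
    funext τ
    have hd : Differentiable ℂ (fun w => cexp (A w + τ * B w)) :=
      Complex.differentiable_exp.comp (hA.add ((differentiable_const _).mul hB))
    have e := hΛ ⟨_, hd.continuous⟩ hd
    simp only [ContinuousMap.coe_mk] at e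
    rw [e]
    congr 1
    ext ⟨w, hw⟩
    have h1 : (NormedSpace.exp (τ • b)) ⟨w, hw⟩ = cexp ((τ • b) ⟨w, hw⟩) := by
      have := NormedSpace.map_exp (ContinuousMap.evalAlgHom ℂ ℂ (⟨w, hw⟩ : M))
        (ContinuousMap.evalCLM ℂ (⟨w, hw⟩ : M)).continuous (τ • b)
      simpa [Complex.exp_eq_exp_ℂ] using this
    have h2 : (a * NormedSpace.exp (τ • b)) ⟨w, hw⟩ =
        a ⟨w, hw⟩ * (NormedSpace.exp (τ • b)) ⟨w, hw⟩ := rfl
    rw [h2, h1]
    simp only [ContinuousMap.restrict_apply, ContinuousMap.coe_mk, ha, hb,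
      ContinuousMap.coe_smul, Pi.smul_apply, smul_eq_mul]
    rw [Complex.exp_add]
  rw [key]
  exact Λ.differentiable.comp ((differentiable_const a).mul
    (differentiable_exp_smul_const (𝕂 := ℂ) b))

end H721CS
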