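import Mathlib

/-!
# Three circles, in exponential form
-/

open Complex Set Metric

namespace H721CS

theorem three_circles {g : ℂ → ℂ} (hg : Differentiable ℂ g) {c τ : ℂ} {r₁ r₂ m M : ℝ}
    (h0 : 0 < r₁) (h12 : r₁ < r₂)
    (hm : ∀ z ∈ closedBall c r₁, ‖g z‖ ≤ m) (hM : ∀ z ∈ closedBall c r₂, ‖g z‖ ≤ M)
    (hτ1 : r₁ ≤ ‖τ - c‖) (hτ2 : ‖τ - c‖ ≤ r₂) :
    ‖g τ‖ ≤ m ^ (1 - (Real.log ‖τ - c‖ - Real.log r₁) / (Real.log r₂ - Real.log r₁)) *
      M ^ ((Real.log ‖τ - c‖ - Real.log r₁) / (Real.log r₂ - Real.log r₁)) := by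
  have hne : τ - c ≠ 0 := by
    intro h; rw [h, norm_zero] at hτ1; linarith
  have hpos : 0 < ‖τ - c‖ := norm_pos_iff.2 hne
  set f : ℂ → ℂ := fun z => g (c + Complex.exp z) with hf
  have hfd : Differentiable ℂ f := hg.comp ((differentiable_const c).add Complex.differentiable_exp)
  have hz : Complex.log (τ - c) ∈ Complex.HadamardThreeLines.verticalClosedStrip (Real.log r₁) (Real.log r₂) := by
    simp only [Complex.HadamardThreeLines.verticalClosedStrip, mem_preimage, Complex.log_re, mem_Icc]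
    exact ⟨Real.log_le_log h0 hτ1, Real.log_le_log hpos hτ2⟩
  have hl : Real.log r₁ < Real.log r₂ := Real.log_lt_log h0 h12
  have key := Complex.HadamardThreeLines.norm_le_interp_of_mem_verticalClosedStrip' (f := f)
    (z := Complex.log (τ - c)) (a := m) (b := M) hl hz hfd.diffContOnCl
    (by
      refine ⟨M, ?_⟩
      rintro _ ⟨z, hz, rfl⟩
      simp only [Complex.HadamardThreeLines.verticalClosedStrip, mem_preimage, mem_Icc] at hz
      simp only [Function.comp_apply, hf]
      apply hM
      rw [mem_closedBall, dist_eq_norm]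
      simp only [add_sub_cancel_left, Complex.norm_exp]
      calc Real.exp z.re ≤ Real.exp (Real.log r₂) := Real.exp_le_exp.2 hz.2
        _ = r₂ := Real.exp_log (h0.trans h12))
    (by
      intro z hz
      simp only [mem_preimage, mem_singleton_iff] at hz
      apply hm
      rw [mem_closedBall, dist_eq_norm]
      simp only [add_sub_cancel_left, Complex.norm_exp, hz, Real.exp_log h0, le_refl])
    (by
      intro z hz
      simp only [mem_preimage, mem_singleton_iff] at hz
      apply hM
      rw [mem_closedBall, dist_eq_norm]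
      simp only [add_sub_cancel_left, Complex.norm_exp, hz, Real.exp_log (h0.trans h12), le_refl])
  simpa [hf, Complex.log_re, Complex.exp_log hne] using key

/-- exponential form: a family of entire functions decaying on the small disc and growing
slowly on the large disc decays on the middle disc -/
theorem three_circles_exp {g : ℂ → ℂ} (hg : Differentiable ℂ g) {c τ : ℂ} {r₁ r r₂ C a b t : ℝ}
    (h0 : 0 < r₁) (h1 : r₁ < r) (h2 : r < r₂) (hC : 0 < C) (ht : 0 ≤ t) (ha : 0 ≤ a) (hb : 0 ≤ b)
    (hm : ∀ z ∈ closedBall c r₁, ‖g z‖ ≤ C * Real.exp (-a * t))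
    (hM : ∀ z ∈ closedBall c r₂, ‖g z‖ ≤ C * Real.exp (b * t))
    (hτ : ‖τ - c‖ ≤ r) :
    ‖g τ‖ ≤ C * Real.exp ((-a * ((Real.log r₂ - Real.log r) / (Real.log r₂ - Real.log r₁)) + b) * t) := by
  have hL : 0 < Real.log r₂ - Real.log r₁ := by
    have := Real.log_lt_log h0 (h1.trans h2); linarith
  have hL2 : Real.log r < Real.log r₂ := Real.log_lt_log (h0.trans h1) h2
  have hL1 : Real.log r₁ < Real.log r := Real.log_lt_log h0 h1
  set θ := (Real.log r₂ - Real.log r) / (Real.log r₂ - Real.log r₁) with hθ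
  have hθ0 : 0 ≤ θ := div_nonneg (by linarith) hL.le
  have hθ1 : θ ≤ 1 := by rw [hθ, div_le_one hL]; linarith
  rcases lt_or_ge ‖τ - c‖ r₁ with h | h
  · refine (hm τ (by rw [mem_closedBall, dist_eq_norm]; exact h.le)).trans ?_
    refine mul_le_mul_of_nonneg_left (Real.exp_le_exp.2 ?_) hC.le
    have : a * θ ≤ a := by nlinarith
    nlinarith [mul_nonneg (sub_nonneg.2 this) ht, mul_nonneg hb ht]
  · have key := three_circles hg h0 (h1.trans h2) hm hM h (hτ.trans h2.le)
    refine key.trans ?_
    set s := (Real.log ‖τ - c‖ - Real.log r₁) / (Real.log r₂ - Real.log r₁) with hs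
    have hpos : 0 < ‖τ - c‖ := h0.trans_le h
    have hs0 : 0 ≤ s := div_nonneg (by linarith [Real.log_le_log h0 h]) hL.le
    have hs1 : s ≤ 1 - θ := by
      rw [hs, hθ, le_sub_iff_add_le, ← add_div, div_le_one hL]
      linarith [Real.log_le_log hpos hτ]
    rw [Real.mul_rpow hC.le (Real.exp_pos _).le, Real.mul_rpow hC.le (Real.exp_pos _).le,
      ← Real.exp_mul, ← Real.exp_mul]
    have e1 : C ^ (1 - s) * Real.exp (-a * t * (1 - s)) * (C ^ s * Real.exp (b * t * s)) =
        C * Real.exp ((-a * (1 - s) + b * s) * t) := by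
      have : C ^ (1 - s) * C ^ s = C := by
        rw [← Real.rpow_add hC]; simp
      calc _ = (C ^ (1 - s) * C ^ s) * (Real.exp (-a * t * (1 - s)) * Real.exp (b * t * s)) := by ring
        _ = _ := by rw [this, ← Real.exp_add]; ring_nf
    rw [e1]
    refine mul_le_mul_of_nonneg_left (Real.exp_le_exp.2 ?_) hC.le
    refine mul_le_mul_of_nonneg_right ?_ ht
    have : a * θ ≤ a * (1 - s) := mul_le_mul_of_nonneg_left (by linarith) ha
    have : b * s ≤ b := by nlinarith
    linarith

end H721CS
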