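import Pool.Agent.H721CS.Vertex

/-!
# Cutting off a vertex
-/

open Complex Set Metric Topology MeasureTheory Filter
namespace H721CS
variable {n : ℕ}

/-- estimate form of being carried by a set -/
def CarB (T : ((Fin n → ℂ) → ℂ) → ℂ) (K : Set (Fin n → ℂ)) : Prop :=
  ∀ ω : Set (Fin n → ℂ), IsOpen ω → K ⊆ ω → ∃ M : Set (Fin n → ℂ), IsCompact M ∧ M ⊆ ω ∧
    ∃ C : ℝ, 0 ≤ C ∧ ∀ f : (Fin n → ℂ) → ℂ, Differentiable ℂ f → ∀ F : ℝ, 0 ≤ F →
      (∀ z ∈ M, ‖f z‖ ≤ F) → ‖T f‖ ≤ C * F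

/-- a vertex which can be separated from another carrier can be cut off -/
theorem cut {T : ((Fin n → ℂ) → ℂ) → ℂ} (hn : n ≠ 0) {V : Set (Fin n → ℂ)} (hVf : V.Finite)
    (hV : ∀ v ∈ V, ∀ j, (v j).im = 0) (hT : Car T (convexHull ℝ V)) {L : Set (Fin n → ℂ)}
    (hTL : Car T L) (hLc : IsCompact L) {a : Fin n → ℂ} (ha : a ∈ V) {η : Fin n → ℂ}
    (hηL : ∀ w ∈ L, reL η w < reL η a) (hηV : ∀ v ∈ V, v ≠ a → reL η v < reL η a) :
    ∃ K' : Set (Fin n → ℂ), K' ⊆ convexHull ℝ V ∧ Convex ℝ K' ∧ IsCompact K' ∧ a ∉ K' ∧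
      CarB T K' := by
  have hKc : IsCompact (convexHull ℝ V) := hVf.isCompact_convexHull (𝕜 := ℝ)
  have hKR := hull_real hV
  have haR : ∀ j, (a j).im = 0 := hV a ha
  obtain ⟨r, hr, c, hc, C, hC, hb⟩ := dec_at_vertex hVf hV hT hTL hLc ha hηL hηV
  have hdiff : ∀ j : Fin n, Differentiable ℂ fun w : Fin n → ℂ => w j := fun j => by fun_prop
  choose rj hrj cj hcj Cj hCj hbj using fun j : Fin n =>
    dec_at_vertex hVf hV (hT.mulT (hdiff j)) (hTL.mulT (hdiff j)) hLc ha hηL hηV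
  have hfin : (Finset.univ : Finset (Fin n)).Nonempty := by
    obtain ⟨m, rfl⟩ := Nat.exists_eq_succ_of_ne_zero hn
    exact Finset.univ_nonempty
  set ρ : ℝ := min r (Finset.univ.inf' hfin rj) with hρ
  have hρ0 : 0 < ρ := lt_min hr ((Finset.lt_inf'_iff hfin).2 fun j _ => hrj j)
  have hρr : ρ ≤ r := min_le_left _ _
  have hρj : ∀ j, ρ ≤ rj j := fun j => (min_le_right _ _).trans (Finset.inf'_le _ (Finset.mem_univ j))
  set Q : Set (Fin n → ℂ) := convexHull ℝ V \ ball a ρ with hQ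
  have hQc : IsCompact Q := hKc.diff isOpen_ball
  -- half space
  obtain ⟨δ, hδ, hQδ⟩ : ∃ δ : ℝ, 0 < δ ∧ ∀ w ∈ Q, reL η w ≤ reL η a - δ := by
    rcases Q.eq_empty_or_nonempty with hQe | hne
    · exact ⟨1, one_pos, by simp [hQe]⟩
    · obtain ⟨w₁, hw₁, hmax⟩ := hQc.exists_isMaxOn hne (continuous_reL η).continuousOn
      have hlt : reL η w₁ < reL η a := by
        refine hull_lt (reL η) hηV w₁ hw₁.1 fun h => ?_
        rw [h] at hw₁
        exact hw₁.2 (mem_ball_self hρ0)
      refine ⟨reL η a - reL η w₁, by linarith, fun w hw => ?_⟩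
      have := isMaxOn_iff.1 hmax w hw
      linarith
  refine ⟨convexHull ℝ V ∩ {w | reL η w ≤ reL η a - δ}, inter_subset_left,
    (convex_convexHull ℝ V).inter (convex_halfSpace_le (reL η).isLinear _),
    hKc.inter_right (isClosed_le (continuous_reL η) continuous_const),
    fun h => by have := h.2; simp only [mem_ofPred_eq] at this; linarith, ?_⟩
  intro ω hω hsub
  refine car_of_decay hT hKc hKR hn hQc (fun z hz => ?_) (fun z hz j => ?_) hω
    (fun w hw => hsub ⟨hw.1, hQδ w hw⟩)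
  · by_cases hzK : z ∈ convexHull ℝ V
    · have hzb : z ∈ ball a ρ := by
        by_contra h
        exact hz ⟨hzK, h⟩
      exact LD_near hT haR hc hC hb (ball_subset_ball hρr hzb)
    · exact LD_of_notMem hT hKc hKR hzK
  · by_cases hzK : z ∈ convexHull ℝ V
    · have hzb : z ∈ ball a ρ := by
        by_contra h
        exact hz ⟨hzK, h⟩
      exact LD_near (hT.mulT (hdiff j)) haR (hcj j) (hCj j) (hbj j)
        (ball_subset_ball (hρj j) hzb)
    · exact LD_of_notMem (hT.mulT (hdiff j)) hKc hKR hzK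

/-- choice of the vertex -/
theorem exists_vertex {V : Set (Fin n → ℂ)} (hVf : V.Finite)
    (hV : ∀ v ∈ V, ∀ j, (v j).im = 0) {L : Set (Fin n → ℂ)} (hLconv : Convex ℝ L)
    (hLc : IsCompact L) (hnot : ¬ convexHull ℝ V ⊆ L) :
    ∃ a ∈ V, ∃ η : Fin n → ℂ, (∀ w ∈ L, reL η w < reL η a) ∧
      ∀ v ∈ V, v ≠ a → reL η v < reL η a := by
  obtain ⟨v₀, hv₀, hv₀L⟩ : ∃ v₀ ∈ V, v₀ ∉ L := by
    by_contra h
    push Not at h
    exact hnot (convexHull_min h hLconv)
  obtain ⟨f, u, hfu, huv⟩ := geometric_hahn_banach_closed_point hLconv hLc.isClosed hv₀L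
  -- squared norm
  set N : (Fin n → ℂ) → ℝ := fun v => ∑ j, (v j).re ^ 2 with hN
  obtain ⟨a₀, ha₀V, ha₀⟩ := hVf.exists_maximalFor f V ⟨v₀, hv₀⟩
  have ha₀' : ∀ v ∈ V, f v ≤ f a₀ := fun v hv => by
    rcases le_total (f v) (f a₀) with h | h
    · exact h
    · exact ha₀ hv h
  set V₁ : Set (Fin n → ℂ) := {v ∈ V | f v = f a₀} with hV₁
  have hV₁f : V₁.Finite := hVf.subset (sep_subset _ _)
  obtain ⟨a, haV₁, ha⟩ := hV₁f.exists_maximalFor N V₁ ⟨a₀, ha₀V, rfl⟩
  have ha' : ∀ v ∈ V₁, N v ≤ N a := fun v hv => by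
    rcases le_total (N v) (N a) with h | h
    · exact h
    · exact ha hv h
  have haV : a ∈ V := haV₁.1
  have hfa : f a = f a₀ := haV₁.2
  obtain ⟨η₀, hη₀⟩ := exists_reL (f : (Fin n → ℂ) →ₗ[ℝ] ℝ)
  have hη₀' : ∀ w, f w = reL η₀ w := hη₀
  set g : (Fin n → ℂ) →ₗ[ℝ] ℝ := reL (fun j => ((a j).re : ℂ)) with hg
  have hgval : ∀ w, g w = ∑ j, (a j).re * (w j).re := by
    intro w
    rw [hg, reL_real (by simp)]
    simp
  have hgc : Continuous g := continuous_reL _
  -- compact set of competitors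
  set P : Set (Fin n → ℂ) := L ∪ {v ∈ V | f v < f a} with hP
  have hPc : IsCompact P := hLc.union ((hVf.subset (sep_subset _ _)).isCompact)
  have hPneg : ∀ w ∈ P, f w - f a < 0 := by
    rintro w (hw | hw)
    · have h1 := hfu w hw
      have h2 := ha₀' v₀ hv₀
      linarith
    · have := hw.2; linarith
  obtain ⟨ε, hε, hεP⟩ : ∃ ε : ℝ, 0 < ε ∧ ∀ w ∈ P, f w - f a + ε * (g w - g a) < 0 := by
    rcases P.eq_empty_or_nonempty with hPe | hne
    · exact ⟨1, one_pos, by simp [hPe]⟩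
    · obtain ⟨w₁, hw₁, hmax⟩ := hPc.exists_isMaxOn hne f.continuous.continuousOn
      obtain ⟨G, hG⟩ := hPc.exists_bound_of_continuousOn
        ((hgc.sub continuous_const).continuousOn (s := P) : ContinuousOn (fun w => g w - g a) P)
      have hG0 : 0 ≤ G := (norm_nonneg _).trans (hG w₁ hw₁)
      have h0 := hPneg w₁ hw₁
      refine ⟨(f a - f w₁) / (2 * (G + 1)), div_pos (by linarith) (by positivity), fun w hw => ?_⟩
      have h1 := isMaxOn_iff.1 hmax w hw
      have h2 := hG w hw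
      rw [Real.norm_eq_abs] at h2
      have h3 : g w - g a ≤ G + 1 := (le_abs_self _).trans (h2.trans (by linarith))
      have h4 : (f a - f w₁) / (2 * (G + 1)) * (g w - g a) ≤ (f a - f w₁) / 2 := by
        calc _ ≤ (f a - f w₁) / (2 * (G + 1)) * (G + 1) :=
              mul_le_mul_of_nonneg_left h3 (div_nonneg (by linarith) (by positivity))
          _ = _ := by field_simp
      linarith
  refine ⟨a, haV, fun j => η₀ j + ε * ((a j).re : ℂ), ?_, ?_⟩
  all_goals
    have hval : ∀ w, reL (fun j => η₀ j + ε * ((a j).re : ℂ)) w = f w + ε * g w := by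
      intro w
      rw [hη₀' w, hg, reL_apply, reL_apply, reL_apply, ← Complex.re_ofReal_mul, ← Complex.add_re,
        Finset.mul_sum, ← Finset.sum_add_distrib]
      congr 1
      exact Finset.sum_congr rfl fun j _ => by ring
  · intro w hw
    rw [hval, hval]
    have := hεP w (Or.inl hw)
    linarith
  · intro v hv hva
    rw [hval, hval]
    rcases (ha₀' v hv).lt_or_eq with h | h
    · have := hεP v (Or.inr ⟨hv, by rw [hfa]; exact h⟩)
      linarith
    · have h1 : N v ≤ N a := ha' v ⟨hv, h⟩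
      have h2 : g v < g a := by
        rw [hgval, hgval]
        have h3 : 0 < ∑ j, ((v j).re - (a j).re) ^ 2 := by
          obtain ⟨j, hj⟩ := Function.ne_iff.1 hva
          refine Finset.sum_pos' (fun i _ => sq_nonneg _) ⟨j, Finset.mem_univ j, ?_⟩
          have : (v j).re - (a j).re ≠ 0 := by
            intro h4
            apply hj
            apply Complex.ext
            · linarith
            · rw [hV v hv j, hV a haV j]
          positivity
        have h4 : ∑ j, ((v j).re - (a j).re) ^ 2 =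
            N v - 2 * ∑ j, (a j).re * (v j).re + ∑ j, (a j).re * (a j).re := by
          rw [hN, Finset.mul_sum, ← Finset.sum_sub_distrib, ← Finset.sum_add_distrib]
          exact Finset.sum_congr rfl fun j _ => by ring
        have h5 : N a = ∑ j, (a j).re * (a j).re :=
          Finset.sum_congr rfl fun j _ => by ring
        rw [h4] at h3
        linarith
      rw [h, hfa]
      nlinarith

end H721CS
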