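import Pool.Agent.H721CS.Car

/-!
# Propagation of exponential decay
-/

open Complex Set Metric Topology

namespace H721CS

variable {n : ℕ}

/-- the quadratic phase `Σ (X_j - a_j)² - (X_j - w_j)²` -/
@[irreducible] def qf (a X w : Fin n → ℂ) : ℂ := ∑ j, ((X j - a j) ^ 2 - (X j - w j) ^ 2)

lemma qf_line (a x d w : Fin n → ℂ) (τ : ℂ) :
    qf a (x + τ • d) w = qf a x w + τ * (2 * ∑ j, d j * (w j - a j)) := by
  simp only [qf, Finset.mul_sum, ← Finset.sum_add_distrib, Pi.add_apply, Pi.smul_apply,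
    smul_eq_mul]
  refine Finset.sum_congr rfl fun j _ => ?_
  ring

lemma continuous_qf (a : Fin n → ℂ) :
    Continuous (fun x : (Fin n → ℂ) × (Fin n → ℂ) => qf a x.1 x.2) := by
  simp only [qf]; fun_prop

lemma differentiable_qf (a X : Fin n → ℂ) : Differentiable ℂ (qf a X) := by
  unfold qf; fun_prop

/-- locally uniform exponential decay at `X` -/
def Dec (T : ((Fin n → ℂ) → ℂ) → ℂ) (a X : Fin n → ℂ) : Prop :=
  ∃ r : ℝ, 0 < r ∧ ∃ c : ℝ, 0 < c ∧ ∃ C : ℝ, 0 < C ∧ ∀ t : ℝ, 0 ≤ t → ∀ X' ∈ closedBall X r,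
    ‖T (fun w => cexp (t * qf a X' w))‖ ≤ C * Real.exp (-c * t)

lemma Dec_of_car {T : ((Fin n → ℂ) → ℂ) → ℂ} {L : Set (Fin n → ℂ)} (hT : Car T L)
    (hL : IsCompact L) {a X : Fin n → ℂ} (h : ∀ w ∈ L, (qf a X w).re < 0) : Dec T a X := by
  have hopen : IsOpen {x : (Fin n → ℂ) × (Fin n → ℂ) | (qf a x.1 x.2).re < 0} :=
    isOpen_lt (Complex.continuous_re.comp (continuous_qf a)) continuous_const
  obtain ⟨u, ω, hu, hω, hXu, hLω, huω⟩ := generalized_tube_lemma isCompact_singleton hL hopen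
    (s := {X}) (by rintro ⟨p, w⟩ ⟨hp, hw⟩; simp only [mem_singleton_iff] at hp; subst hp
                   exact h w hw)
  obtain ⟨r, hr, hru⟩ := Metric.nhds_basis_closedBall.mem_iff.1 (hu.mem_nhds (hXu rfl))
  have hneg : ∀ p ∈ closedBall X r, ∀ w ∈ L, (qf a p w).re < 0 := fun p hp w hw =>
    huω (show (p, w) ∈ u ×ˢ ω from ⟨hru hp, hLω hw⟩)
  obtain ⟨c, hc, hβ⟩ : ∃ c : ℝ, 0 < c ∧ ∀ p ∈ closedBall X r, ∀ w ∈ L, (qf a p w).re ≤ -(2 * c) := by
    rcases L.eq_empty_or_nonempty with rfl | hne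
    · exact ⟨1, one_pos, by simp⟩
    · obtain ⟨⟨p₀, w₀⟩, hmem, hmax⟩ := ((isCompact_closedBall X r).prod hL).exists_isMaxOn
        (f := fun x : (Fin n → ℂ) × (Fin n → ℂ) => (qf a x.1 x.2).re)
        ((nonempty_closedBall.2 hr.le).prod hne)
        (Complex.continuous_re.comp (continuous_qf a)).continuousOn
      have h0 := hneg p₀ hmem.1 w₀ hmem.2
      refine ⟨-(qf a p₀ w₀).re / 2, by linarith, fun p hp w hw => ?_⟩
      have : (qf a p w).re ≤ (qf a p₀ w₀).re := isMaxOn_iff.1 hmax (p, w) ⟨hp, hw⟩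
      linarith
  obtain ⟨C, hC, hb⟩ := hT.bound hL (continuous_qf a) (differentiable_qf a)
    (isCompact_closedBall X r) hβ hc
  refine ⟨r, hr, c, hc, C, hC, fun t ht X' hX' => (hb t ht X' hX').trans_eq ?_⟩
  congr 2; ring

/-- holomorphy along lines -/
lemma Car.line {T : ((Fin n → ℂ) → ℂ) → ℂ} {K : Set (Fin n → ℂ)} (hT : Car T K)
    (a x d : Fin n → ℂ) (t : ℝ) :
    Differentiable ℂ (fun τ : ℂ => T (fun w => cexp (t * qf a (x + τ • d) w))) := by
  have h := hT.differentiable_line (A := fun w => t * qf a x w)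
    (B := fun w => t * (2 * ∑ j, d j * (w j - a j)))
    ((differentiable_const _).mul (differentiable_qf a x)) (by fun_prop)
  have e : (fun τ : ℂ => T (fun w => cexp (t * qf a (x + τ • d) w))) =
      fun τ : ℂ => T (fun w => cexp (t * qf a x w + τ * (t * (2 * ∑ j, d j * (w j - a j))))) := by
    funext τ
    congr 1
    funext w
    rw [qf_line]
    congr 1
    ring
  rw [e]; exact h

/-- propagation to a bigger ball -/
lemma Dec_step {T : ((Fin n → ℂ) → ℂ) → ℂ} {K : Set (Fin n → ℂ)} (hT : Car T K)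
    (hK : IsCompact K) {a X₁ : Fin n → ℂ} {r₁ r r₂ c C : ℝ} (h0 : 0 < r₁) (h1 : r₁ < r)
    (h2 : r < r₂) (hc : 0 < c) (hC : 0 < C)
    (hdec : ∀ t : ℝ, 0 ≤ t → ∀ X' ∈ closedBall X₁ r₁,
      ‖T (fun w => cexp (t * qf a X' w))‖ ≤ C * Real.exp (-c * t))
    (hle : ∀ X' ∈ closedBall X₁ r₂, ∀ w ∈ K, (qf a X' w).re ≤ 0) :
    ∃ c' : ℝ, 0 < c' ∧ ∃ C' : ℝ, 0 < C' ∧ ∀ t : ℝ, 0 ≤ t → ∀ X' ∈ closedBall X₁ r,
      ‖T (fun w => cexp (t * qf a X' w))‖ ≤ C' * Real.exp (-c' * t) := by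
  set θ := (Real.log r₂ - Real.log r) / (Real.log r₂ - Real.log r₁) with hθ
  have hL2 : Real.log r < Real.log r₂ := Real.log_lt_log (h0.trans h1) h2
  have hL1 : Real.log r₁ < Real.log r := Real.log_lt_log h0 h1
  have hθ0 : 0 < θ := div_pos (by linarith) (by linarith)
  have hθ1 : θ < 1 := by rw [hθ, div_lt_one (by linarith)]; linarith
  obtain ⟨C₂, hC₂, hb⟩ := hT.bound hK (continuous_qf a) (differentiable_qf a)
    (isCompact_closedBall X₁ r₂) hle (δ := c * θ / 2) (by positivity)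
  refine ⟨c * θ / 2, by positivity, max C C₂, by positivity, fun t ht X' hX' => ?_⟩
  rcases eq_or_ne X' X₁ with rfl | hne
  · refine (hdec t ht X' (mem_closedBall_self h0.le)).trans ?_
    refine mul_le_mul (le_max_left _ _) (Real.exp_le_exp.2 ?_) (Real.exp_pos _).le (by positivity)
    have : c * θ / 2 ≤ c := by nlinarith
    nlinarith
  · have hn : 0 < ‖X' - X₁‖ := norm_pos_iff.2 (sub_ne_zero.2 hne)
    set d : Fin n → ℂ := ((‖X' - X₁‖⁻¹ : ℝ) : ℂ) • (X' - X₁) with hd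
    have hdn : ‖d‖ = 1 := by
      rw [hd, norm_smul]
      simp [hn.ne']
    have hmem : ∀ (z : ℂ) (R : ℝ), z ∈ closedBall (0 : ℂ) R → X₁ + z • d ∈ closedBall X₁ R := by
      intro z R hz
      rw [mem_closedBall, dist_eq_norm] at hz ⊢
      simpa [norm_smul, hdn] using hz
    have key := three_circles_exp (hT.line a X₁ d t) (c := 0) (τ := ((‖X' - X₁‖ : ℝ) : ℂ))
      (C := max C C₂) (a := c) (b := c * θ / 2) (t := t) h0 h1 h2 (by positivity) ht hc.le
      (by positivity)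
      (fun z hz => (hdec t ht _ (hmem z r₁ hz)).trans
        (mul_le_mul_of_nonneg_right (le_max_left _ _) (Real.exp_pos _).le))
      (fun z hz => (hb t ht _ (hmem z r₂ hz)).trans
        (by rw [zero_add]; exact mul_le_mul_of_nonneg_right (le_max_right _ _) (Real.exp_pos _).le))
      (by
        rw [mem_closedBall, dist_eq_norm] at hX'
        simpa using hX')
    have e : X₁ + ((‖X' - X₁‖ : ℝ) : ℂ) • d = X' := by
      rw [hd, smul_smul, ← Complex.ofReal_mul, mul_inv_cancel₀ hn.ne']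
      simp
    rw [e] at key
    refine key.trans_eq ?_
    congr 2
    rw [← hθ]; ring

/-- decay propagates through a connected open region where the phase is nonpositive -/
lemma Dec_region {T : ((Fin n → ℂ) → ℂ) → ℂ} {K : Set (Fin n → ℂ)} (hT : Car T K)
    (hK : IsCompact K) {a : Fin n → ℂ} {Ω : Set (Fin n → ℂ)} (hΩ : IsOpen Ω)
    (hconn : IsPreconnected Ω) (hle : ∀ X ∈ Ω, ∀ w ∈ K, (qf a X w).re ≤ 0)
    {X₀ : Fin n → ℂ} (hX₀ : X₀ ∈ Ω) (h : Dec T a X₀) : ∀ X ∈ Ω, Dec T a X := by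
  have hS : IsOpen {X | Dec T a X} := by
    rw [Metric.isOpen_iff]
    rintro X ⟨r, hr, c, hc, C, hC, hb⟩
    refine ⟨r / 2, by positivity, fun Y hY => ⟨r / 2, by positivity, c, hc, C, hC,
      fun t ht X' hX' => hb t ht X' ?_⟩⟩
    rw [mem_ball] at hY
    rw [mem_closedBall] at hX' ⊢
    linarith [dist_triangle X' Y X]
  have := hconn.subset_of_closure_inter_subset hS ⟨X₀, hX₀, h⟩ (by
    rintro X ⟨hXc, hXΩ⟩
    obtain ⟨ρ, hρ, hρΩ⟩ := Metric.isOpen_iff.1 hΩ X hXΩ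
    obtain ⟨X₁, hX₁, hd⟩ := Metric.mem_closure_iff.1 hXc (ρ / 4) (by positivity)
    obtain ⟨r₁, hr₁, c, hc, C, hC, hb⟩ := hX₁
    have hr : 0 < min r₁ (ρ / 8) := lt_min hr₁ (by positivity)
    obtain ⟨c', hc', C', hC', hb'⟩ := Dec_step hT hK (a := a) (X₁ := X₁) (r₁ := min r₁ (ρ / 8))
      (r := ρ / 2 - ρ / 8) (r₂ := ρ / 2) (c := c) (C := C) hr
      ((min_le_right _ _).trans_lt (by linarith)) (by linarith) hc hC
      (fun t ht X' hX' => hb t ht X' (closedBall_subset_closedBall (min_le_left _ _) hX'))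
      (fun X' hX' w hw => hle X' (hρΩ (by
        rw [mem_closedBall] at hX'
        rw [mem_ball]
        have := dist_triangle X' X₁ X
        rw [dist_comm X₁ X] at this
        linarith)) w hw)
    refine ⟨ρ / 8, by positivity, c', hc', C', hC', fun t ht X' hX' => hb' t ht X' ?_⟩
    rw [mem_closedBall] at hX' ⊢
    linarith [dist_triangle X' X X₁])
  exact this

/-- the step to the vertex -/
lemma Dec_vertex {T : ((Fin n → ℂ) → ℂ) → ℂ} {K : Set (Fin n → ℂ)} (hT : Car T K)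
    (hK : IsCompact K) {a d : Fin n → ℂ} {B : ℝ} (hB : 0 ≤ B) (hdec : Dec T a (a + d))
    (hle : ∀ κ : ℝ, 0 < κ → κ ≤ 1 → ∀ x ∈ closedBall a κ, ∀ τ ∈ closedBall (1 : ℂ) (1 + κ),
      ∀ w ∈ K, (qf a (x + τ • d) w).re ≤ B * κ ^ 2) : Dec T a a := by
  obtain ⟨r₀, hr₀, c, hc, C, hC, hb⟩ := hdec
  set r₁ : ℝ := min (1 / 2) (r₀ / (2 * (‖d‖ + 1))) with hr₁
  have hr₁0 : 0 < r₁ := lt_min (by norm_num) (by positivity)
  have hr₁1 : r₁ ≤ 1 / 2 := min_le_left _ _
  have hr₁d : r₁ * ‖d‖ ≤ r₀ / 2 := by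
    have h1 : r₁ ≤ r₀ / (2 * (‖d‖ + 1)) := min_le_right _ _
    calc r₁ * ‖d‖ ≤ r₁ * (‖d‖ + 1) := mul_le_mul_of_nonneg_left (by linarith) hr₁0.le
      _ ≤ r₀ / (2 * (‖d‖ + 1)) * (‖d‖ + 1) := mul_le_mul_of_nonneg_right h1 (by positivity)
      _ = r₀ / 2 := by field_simp
  set Λ₀ : ℝ := Real.log 2 - Real.log r₁ with hΛ₀
  have hΛ : 0 < Λ₀ := by
    have : Real.log r₁ < Real.log 2 := Real.log_lt_log hr₁0 (by linarith)
    linarith
  set κ : ℝ := min 1 (min (r₀ / 2) (c / (4 * Λ₀ * (B + 1)))) with hκ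
  have hκ0 : 0 < κ := lt_min one_pos (lt_min (by positivity) (by positivity))
  have hκ1 : κ ≤ 1 := min_le_left _ _
  have hκ2 : κ ≤ r₀ / 2 := (min_le_right _ _).trans (min_le_left _ _)
  have hκ3 : κ ≤ c / (4 * Λ₀ * (B + 1)) := (min_le_right _ _).trans (min_le_right _ _)
  have hκ3' : κ * (4 * Λ₀ * (B + 1)) ≤ c := (le_div_iff₀ (by positivity)).1 hκ3
  have hlog : κ / 2 ≤ Real.log (1 + κ) := by
    have := Real.le_log_one_add_of_nonneg hκ0.le
    refine le_trans ?_ this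
    rw [div_le_div_iff₀ (by norm_num) (by positivity)]
    nlinarith
  have hlog2 : Real.log (1 + κ) ≤ Real.log 2 := Real.log_le_log (by linarith) (by linarith)
  have hlog1 : Real.log r₁ < 0 := Real.log_neg hr₁0 (by linarith)
  set θ : ℝ := (Real.log (1 + κ) - Real.log 1) / (Real.log (1 + κ) - Real.log r₁) with hθ
  have hθκ : κ / (2 * Λ₀) ≤ θ := by
    rw [hθ, Real.log_one, sub_zero, div_le_div_iff₀ (by positivity) (by linarith)]
    calc κ * (Real.log (1 + κ) - Real.log r₁) ≤ κ * Λ₀ :=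
          mul_le_mul_of_nonneg_left (by linarith) hκ0.le
      _ = κ / 2 * (2 * Λ₀) := by ring
      _ ≤ Real.log (1 + κ) * (2 * Λ₀) := mul_le_mul_of_nonneg_right hlog (by positivity)
  have hmain : (B + 1) * κ ^ 2 ≤ c * θ / 2 := by
    have h1 : c * (κ / (2 * Λ₀)) ≤ c * θ := mul_le_mul_of_nonneg_left hθκ hc.le
    have h2 : (B + 1) * κ ^ 2 ≤ c * (κ / (2 * Λ₀)) / 2 := by
      have : c * (κ / (2 * Λ₀)) / 2 = c * κ / (4 * Λ₀) := by field_simp; ring
      rw [this, le_div_iff₀ (by positivity)]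
      nlinarith
    linarith
  have hθ0 : 0 < θ := lt_of_lt_of_le (by positivity) hθκ
  obtain ⟨C₂, hC₂, hb₂⟩ := hT.bound hK
    (P := (Fin n → ℂ) × ℂ) (q := fun p w => qf a (p.1 + p.2 • d) w)
    ((continuous_qf a).comp (by fun_prop : Continuous fun x : ((Fin n → ℂ) × ℂ) × (Fin n → ℂ) =>
      (x.1.1 + x.1.2 • d, x.2)))
    (fun p => differentiable_qf a _)
    (X := closedBall a κ ×ˢ closedBall (1 : ℂ) (1 + κ))
    ((isCompact_closedBall _ _).prod (isCompact_closedBall _ _)) (β := B * κ ^ 2)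
    (fun p hp w hw => hle κ hκ0 hκ1 p.1 hp.1 p.2 hp.2 w hw) (δ := κ ^ 2) (by positivity)
  refine ⟨κ, hκ0, c * θ / 2, by positivity, max C C₂, by positivity, fun t ht x hx => ?_⟩
  have key := three_circles_exp (hT.line a x d t) (c := 1) (τ := 0) (r₁ := r₁) (r := 1)
    (r₂ := 1 + κ) (C := max C C₂) (a := c) (b := (B + 1) * κ ^ 2) (t := t) hr₁0 (by linarith)
    (by linarith) (by positivity) ht hc.le (by positivity)
    (fun z hz => (hb t ht _ (by
        rw [mem_closedBall, dist_eq_norm] at hz hx ⊢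
        have e : x + z • d - (a + d) = (x - a) + (z - 1) • d := by
          rw [sub_smul, one_smul]; abel
        rw [e]
        refine (norm_add_le _ _).trans ?_
        rw [norm_smul]
        have : ‖z - 1‖ * ‖d‖ ≤ r₁ * ‖d‖ := mul_le_mul_of_nonneg_right hz (norm_nonneg _)
        linarith)).trans
      (mul_le_mul_of_nonneg_right (le_max_left _ _) (Real.exp_pos _).le))
    (fun z hz => (hb₂ t ht (x, z) ⟨hx, hz⟩).trans (by
      refine mul_le_mul (le_max_right _ _) (Real.exp_le_exp.2 (le_of_eq (by ring)))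
        (Real.exp_pos _).le (by positivity)))
    (by simp)
  simp only [zero_smul, add_zero] at key
  refine key.trans (mul_le_mul_of_nonneg_left (Real.exp_le_exp.2 ?_) (by positivity))
  rw [← hθ]
  refine mul_le_mul_of_nonneg_right ?_ ht
  linarith

end H721CS
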