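import Mathlib

/-!
# C-supports of analytic functionals, complex and real supporting hyperplanes
-/

set_option autoImplicit false

open Set Topology Filter

namespace Pool.Agent.H721CS

variable {n : ℕ}

/-! ## Analytic functionals, carriers, C-supports -/

/-- The entire functions form a linear subspace of the continuous functions on `ℂⁿ`. -/
def entireSubmodule (n : ℕ) : Submodule ℂ C(Fin n → ℂ, ℂ) where
  carrier := {f | Differentiable ℂ f}
  add_mem' hf hg := Differentiable.add hf hg
  zero_mem' := differentiable_const (0 : ℂ)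
  smul_mem' c _ hf := Differentiable.const_smul hf c

/-- The space `H(ℂⁿ)` of entire functions. -/
def Entire (n : ℕ) : Type := entireSubmodule n

noncomputable instance : AddCommGroup (Entire n) := Submodule.addCommGroup (entireSubmodule n)

noncomputable instance : Module ℂ (Entire n) := Submodule.module (entireSubmodule n)

/-- The topology of `H(ℂⁿ)`: uniform convergence on compact sets (the topology induced by the
compact-open topology of `C(ℂⁿ, ℂ)`). -/
noncomputable instance : TopologicalSpace (Entire n) :=
  TopologicalSpace.induced Subtype.val ContinuousMap.compactOpen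

/-- A continuous function on `ω` is holomorphic. -/
def IsHol {ω : Set (Fin n → ℂ)} (f : C(ω, ℂ)) : Prop :=
  ∃ g : (Fin n → ℂ) → ℂ, DifferentiableOn ℂ g ω ∧ ∀ z : ω, f z = g z

lemma IsHol.add {ω : Set (Fin n → ℂ)} {f g : C(ω, ℂ)} (hf : IsHol f) (hg : IsHol g) :
    IsHol (f + g) := by
  obtain ⟨f', hf, hf'⟩ := hf
  obtain ⟨g', hg, hg'⟩ := hg
  exact ⟨f' + g', hf.add hg, fun z => by simp [hf' z, hg' z]⟩

lemma IsHol.smul {ω : Set (Fin n → ℂ)} {f : C(ω, ℂ)} (c : ℂ) (hf : IsHol f) :
    IsHol (c • f) := by
  obtain ⟨f', hf, hf'⟩ := hf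
  exact ⟨c • f', hf.const_smul c, fun z => by simp [hf' z]⟩

lemma IsHol.zero (ω : Set (Fin n → ℂ)) : IsHol (0 : C(ω, ℂ)) :=
  ⟨fun _ => 0, differentiableOn_const (0 : ℂ), fun _ => rfl⟩

/-- The functions holomorphic on `ω` form a linear subspace of the continuous functions. -/
def holSubmodule (ω : Set (Fin n → ℂ)) : Submodule ℂ C(ω, ℂ) where
  carrier := {f | IsHol f}
  add_mem' := IsHol.add
  zero_mem' := IsHol.zero ω
  smul_mem' c _ hf := IsHol.smul c hf

/-- The space `H(ω)` of the functions holomorphic on the open set `ω`. -/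
def Hol (ω : Set (Fin n → ℂ)) : Type := holSubmodule ω

noncomputable instance (ω : Set (Fin n → ℂ)) : AddCommGroup (Hol ω) :=
  Submodule.addCommGroup (holSubmodule ω)

noncomputable instance (ω : Set (Fin n → ℂ)) : Module ℂ (Hol ω) :=
  Submodule.module (holSubmodule ω)

/-- The topology of `H(ω)`: uniform convergence on compact subsets of `ω`. -/
noncomputable instance (ω : Set (Fin n → ℂ)) : TopologicalSpace (Hol ω) :=
  TopologicalSpace.induced Subtype.val ContinuousMap.compactOpen

lemma isHol_restrict (ω : Set (Fin n → ℂ)) (f : Entire n) : IsHol (f.1.restrict ω) :=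
  ⟨f.1, f.2.differentiableOn, fun _ => rfl⟩

/-- The restriction map `H(ℂⁿ) → H(ω)`. -/
noncomputable def restr (ω : Set (Fin n → ℂ)) (f : Entire n) : Hol ω :=
  ⟨f.1.restrict ω, isHol_restrict ω f⟩

/-- `K` is a carrier of the analytic functional `T`: `K` is compact and `T` extends continuously
to `H(ω)` for every open `ω ⊇ K`. -/
structure IsCarrier (T : Entire n →L[ℂ] ℂ) (K : Set (Fin n → ℂ)) : Prop where
  compact : IsCompact K
  extend : ∀ ω : Set (Fin n → ℂ), IsOpen ω → K ⊆ ω →
    ∃ T' : Hol ω →L[ℂ] ℂ, ∀ f : Entire n, T' (restr ω f) = T f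

/-- `K` is a C-support of `T`: a convex compact carrier, minimal among the convex compact
carriers. -/
structure IsCSupport (T : Entire n →L[ℂ] ℂ) (K : Set (Fin n → ℂ)) : Prop where
  convex : Convex ℝ K
  carrier : IsCarrier T K
  minimal : ∀ K' : Set (Fin n → ℂ), Convex ℝ K' → IsCarrier T K' → K' ⊆ K → K' = K

/-- `K` is a unique C-support: it is convex and compact, and whenever it is a C-support of an
analytic functional, it is the only C-support of that functional. -/
structure IsUniqueCSupport (K : Set (Fin n → ℂ)) : Prop where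
  convex : Convex ℝ K
  compact : IsCompact K
  unique : ∀ T : Entire n →L[ℂ] ℂ, IsCSupport T K → ∀ L : Set (Fin n → ℂ), IsCSupport T L → L = K

/-! ## Complex supporting hyperplanes with respect to `V(K)` -/

/-- The smallest complex affine subspace containing `K`. -/
def V (K : Set (Fin n → ℂ)) : AffineSubspace ℂ (Fin n → ℂ) := affineSpan ℂ K

/-- The interior of `K` relative to `V(K)`. -/
def relInterior (K : Set (Fin n → ℂ)) : Set (Fin n → ℂ) :=
  {z | z ∈ V K ∧ K ∈ 𝓝[(V K : Set (Fin n → ℂ))] z}

/-- `P` is a complex affine hyperplane of `V(K)` that meets `K` but not the set `J`; with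
`J = relInterior K` these are the complex supporting hyperplanes of `K` with respect to `V(K)`. -/
structure IsComplexSupporting (J K : Set (Fin n → ℂ)) (P : AffineSubspace ℂ (Fin n → ℂ)) :
    Prop where
  le : P ≤ V K
  dim : Module.finrank ℂ P.direction + 1 = Module.finrank ℂ (V K).direction
  meets : ((P : Set (Fin n → ℂ)) ∩ K).Nonempty
  disjoint : Disjoint (P : Set (Fin n → ℂ)) J

/-! ## Real supporting hyperplanes -/

/-- Unit normal vectors together with offsets. -/
abbrev NormalOffset (n : ℕ) : Type := {u : Fin n → ℂ // ∑ j, ‖u j‖ ^ 2 = 1} × ℝ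

/-- The real inner product of the normal `u` with `z`. -/
noncomputable def height (u : {u : Fin n → ℂ // ∑ j, ‖u j‖ ^ 2 = 1}) (z : Fin n → ℂ) : ℝ :=
  (∑ j, starRingEnd ℂ (u.1 j) * z j).re

/-- The real affine hyperplane of `ℂⁿ = ℝ²ⁿ` with given unit normal and offset. -/
def hyper (p : NormalOffset n) : Set (Fin n → ℂ) := {z | height p.1 z = p.2}

/-- The set of all real affine hyperplanes of `ℂⁿ`. -/
def RealHyperplane (n : ℕ) : Type := {h : Set (Fin n → ℂ) // h ∈ range (hyper (n := n))}

/-- A pair (unit normal, offset) gives a hyperplane. -/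
def toHyperplane (p : NormalOffset n) : RealHyperplane n := ⟨hyper p, mem_range_self p⟩

/-- The natural topology on hyperplanes, given by normal direction and offset. -/
noncomputable instance : TopologicalSpace (RealHyperplane n) :=
  TopologicalSpace.coinduced (toHyperplane (n := n)) inferInstance

/-- `S(K)`: the real hyperplanes that meet `K` and have `K` in one of their closed half-spaces. -/
def S (K : Set (Fin n → ℂ)) : Set (RealHyperplane n) :=
  {h | (h.1 ∩ K).Nonempty ∧ ∃ p : NormalOffset n, toHyperplane p = h ∧ ∀ z ∈ K, height p.1 z ≤ p.2}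

/-- `S₀(K)`: the `h` in `S(K)` such that some extreme point of `K` in `h` lies in exactly one
complex supporting hyperplane (those of `IsComplexSupporting J K`). -/
def S₀ (J K : Set (Fin n → ℂ)) : Set (RealHyperplane n) :=
  {h | h ∈ S K ∧ ∃ z ∈ K.extremePoints ℝ, z ∈ h.1 ∧
    ∃! P : AffineSubspace ℂ (Fin n → ℂ), IsComplexSupporting J K P ∧ z ∈ P}

/-- The standard real simplex with vertices `0, e_1, …, e_n` in `ℝⁿ ⊂ ℂⁿ`. -/
def simplex (n : ℕ) : Set (Fin n → ℂ) :=
  convexHull ℝ (insert 0 (range fun i : Fin n => (Pi.single i (1 : ℂ) : Fin n → ℂ)))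

end Pool.Agent.H721CS
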