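import Pool.Agent.H721CS.Cut
import Pool.Agent.H721CS.Defs

/-!
# Real polytopes are unique C-supports; `S₀` of the real simplex is empty
-/

set_option autoImplicit false

open Set Topology Filter

namespace Pool.Agent.H721CS

variable {n : ℕ}

/-! ## The bridge to estimates -/

/-- The functional as a map on all functions. -/
noncomputable def act (T : Entire n →L[ℂ] ℂ) (f : (Fin n → ℂ) → ℂ) : ℂ := by
  classical
  exact if h : Differentiable ℂ f then T ⟨⟨f, h.continuous⟩, h⟩ else 0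

lemma act_eq (T : Entire n →L[ℂ] ℂ) (f : Entire n) : act T f.1 = T f := by
  have h : Differentiable ℂ f.1 := f.2
  simp only [act, dif_pos h]
  rfl

lemma act_eq' (T : Entire n →L[ℂ] ℂ) {f : (Fin n → ℂ) → ℂ} (h : Differentiable ℂ f) :
    act T f = T ⟨⟨f, h.continuous⟩, h⟩ := by
  simp only [act, dif_pos h]

/-- restriction to a compact set -/
noncomputable def restM (M : Set (Fin n → ℂ)) : Entire n →ₗ[ℂ] C(M, ℂ) where
  toFun f := f.1.restrict M
  map_add' _ _ := rfl
  map_smul' _ _ := rfl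

/-- a functional bounded through a linear map factors through it -/
lemma factor {E F : Type*} [AddCommGroup E] [Module ℂ E] [NormedAddCommGroup F] [NormedSpace ℂ F]
    (T : E →ₗ[ℂ] ℂ) (R : E →ₗ[ℂ] F) {C : ℝ} (hb : ∀ f : E, ‖T f‖ ≤ C * ‖R f‖) :
    ∃ Λ : F →L[ℂ] ℂ, ∀ f : E, T f = Λ (R f) := by
  have hker : LinearMap.ker R ≤ LinearMap.ker T := by
    intro f hf
    rw [LinearMap.mem_ker] at hf ⊢
    have := hb f
    rw [hf, norm_zero, mul_zero] at this
    exact norm_le_zero_iff.1 this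
  set φ : LinearMap.range R →ₗ[ℂ] ℂ :=
    ((LinearMap.ker R).liftQ T hker).comp R.quotKerEquivRange.symm.toLinearMap with hφ
  have hφR : ∀ f : E, φ ⟨R f, LinearMap.mem_range_self R f⟩ = T f := by
    intro f
    have : R.quotKerEquivRange.symm ⟨R f, LinearMap.mem_range_self R f⟩ =
        (LinearMap.ker R).mkQ f := R.quotKerEquivRange_symm_apply_image f _
    simp only [hφ, LinearMap.comp_apply, LinearEquiv.coe_coe, this]
    simp
  have hφb : ∀ x : LinearMap.range R, ‖φ x‖ ≤ C * ‖x‖ := by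
    rintro ⟨_, f, rfl⟩
    rw [hφR f]
    exact hb f
  obtain ⟨Λ, hΛ, -⟩ := exists_extension_norm_eq (LinearMap.range R) (φ.mkContinuous C hφb)
  refine ⟨Λ, fun f => ?_⟩
  have := hΛ ⟨R f, LinearMap.mem_range_self R f⟩
  rw [LinearMap.mkContinuous_apply, hφR] at this
  exact this.symm

/-- Hahn-Banach -/
lemma exists_rep (T : Entire n →ₗ[ℂ] ℂ) {M : Set (Fin n → ℂ)} (hM : IsCompact M) {C : ℝ}
    (h : ∀ f : Entire n, ∀ F : ℝ, 0 ≤ F →
      (∀ z ∈ M, ‖f.1 z‖ ≤ F) → ‖T f‖ ≤ C * F) :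
    ∃ Λ : C(M, ℂ) →L[ℂ] ℂ, ∀ f : Entire n, T f = Λ (f.1.restrict M) := by
  have : CompactSpace M := isCompact_iff_compactSpace.1 hM
  have hb : ∀ f : Entire n, ‖T f‖ ≤ C * ‖restM M f‖ := fun f => by
    refine h f ‖restM M f‖ (norm_nonneg _) fun z hz => ?_
    exact (restM M f).norm_coe_le_norm (⟨z, hz⟩ : M)
  obtain ⟨Λ, hΛ⟩ := factor (E := Entire n) (F := C(M, ℂ)) T (restM M) hb
  exact ⟨Λ, hΛ⟩

/-- continuity estimate in the compact-open topology -/
lemma exists_bound {ω : Set (Fin n → ℂ)} (T' : Hol ω →L[ℂ] ℂ) :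
    ∃ M : Set (Fin n → ℂ), IsCompact M ∧ M ⊆ ω ∧ ∃ C : ℝ, 0 ≤ C ∧ ∀ g : Hol ω, ∀ F : ℝ, 0 ≤ F →
      (∀ z : ω, (z : Fin n → ℂ) ∈ M → ‖g.1 z‖ ≤ F) → ‖T' g‖ ≤ C * F := by
  have h1 : {g : Hol ω | ‖T' g‖ < 1} ∈ 𝓝 (0 : Hol ω) := by
    have : IsOpen {g : Hol ω | ‖T' g‖ < 1} :=
      isOpen_lt (continuous_norm.comp T'.continuous) continuous_const
    exact this.mem_nhds (by simp)
  have hind : Topology.IsInducing (fun g : Hol ω => g.1) := Topology.IsInducing.subtypeVal
  rw [hind.nhds_eq_comap] at h1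
  obtain ⟨U, hU, hUs⟩ := Filter.mem_comap.1 h1
  obtain ⟨⟨K₀, W⟩, ⟨hK₀, hW⟩, hKW⟩ :=
    (nhds_basis_uniformity' ContinuousMap.hasBasis_compactConvergenceUniformity).mem_iff.1 hU
  obtain ⟨ε, hε, hεW⟩ := Metric.mem_uniformity_dist.1 hW
  have key : ∀ g : Hol ω, (∀ x ∈ K₀, ‖g.1 x‖ < ε) → ‖T' g‖ < 1 := by
    intro g hg
    refine hUs (hKW ?_)
    intro x hx
    refine hεW ?_
    have h0 : (0 : Hol ω).1 x = 0 := rfl
    rw [dist_comm, h0, dist_zero_right]
    exact hg x hx
  refine ⟨Subtype.val '' K₀, hK₀.image continuous_subtype_val, ?_, 2 / ε, by positivity, ?_⟩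
  · rintro _ ⟨x, -, rfl⟩; exact x.2
  · intro g F hF hgF
    have hgF' : ∀ x ∈ K₀, ‖g.1 x‖ ≤ F := fun x hx => hgF x ⟨x, hx, rfl⟩
    rcases hF.eq_or_lt with rfl | hF'
    · have h2 : ∀ m : ℕ, (m : ℝ) * ‖T' g‖ < 1 := by
        intro m
        have h3 := key ((m : ℂ) • g) (fun x hx => by
          have h4 : ‖g.1 x‖ = 0 := le_antisymm (hgF' x hx) (norm_nonneg _)
          have h5 : ((m : ℂ) • g : Hol ω).1 x = (m : ℂ) * g.1 x := rfl
          rw [h5, norm_mul, h4, mul_zero]; exact hε)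
        rw [map_smul, norm_smul] at h3
        simpa using h3
      have h6 : ‖T' g‖ ≤ 0 := by
        by_contra hcon
        push Not at hcon
        obtain ⟨m, hm⟩ := exists_nat_gt (1 / ‖T' g‖)
        have := h2 m
        rw [div_lt_iff₀ hcon] at hm
        linarith
      simpa using h6
    · have h3 := key (((ε / (2 * F) : ℝ) : ℂ) • g) (fun x hx => by
        have h5 : (((ε / (2 * F) : ℝ) : ℂ) • g : Hol ω).1 x =
          ((ε / (2 * F) : ℝ) : ℂ) * g.1 x := rfl
        rw [h5, norm_mul, Complex.norm_real, Real.norm_of_nonneg (by positivity)]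
        calc ε / (2 * F) * ‖g.1 x‖ ≤ ε / (2 * F) * F :=
              mul_le_mul_of_nonneg_left (hgF' x hx) (by positivity)
          _ = ε / 2 := by field_simp
          _ < ε := by linarith)
      rw [map_smul, norm_smul, Complex.norm_real, Real.norm_of_nonneg (by positivity)] at h3
      have h7 : ‖T' g‖ < 1 / (ε / (2 * F)) := by
        rw [lt_div_iff₀ (by positivity), mul_comm]; exact h3
      refine h7.le.trans_eq ?_
      field_simp

lemma car_of_isCarrier {T : Entire n →L[ℂ] ℂ} {K : Set (Fin n → ℂ)} (h : IsCarrier T K) :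
    _root_.H721CS.Car (act T) K := by
  intro ω hω hK
  obtain ⟨T', hT'⟩ := h.extend ω hω hK
  obtain ⟨M, hM, hMω, C, hC, hb⟩ := exists_bound T'
  obtain ⟨Λ, hΛ⟩ := exists_rep (T : Entire n →ₗ[ℂ] ℂ) hM (C := C) (fun f F hF hfF => by
    have h1 := hb (restr ω f) F hF (fun z hz => hfF z hz)
    rw [hT' f] at h1
    exact h1)
  refine ⟨M, hM, hMω, Λ, fun f hf => ?_⟩
  have h2 := act_eq T ⟨f, hf⟩
  simp only at h2
  rw [h2]
  exact hΛ ⟨f, hf⟩

/-- extension of continuous functionals from `C(M)` to `H(ω)` -/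
lemma isCarrier_of_carB {T : Entire n →L[ℂ] ℂ} {K : Set (Fin n → ℂ)} (hK : IsCompact K)
    (h : _root_.H721CS.CarB (act T) K) : IsCarrier T K := by
  refine ⟨hK, fun ω hω hKω => ?_⟩
  obtain ⟨M, hM, hMω, C, hC, hb⟩ := h ω hω hKω
  obtain ⟨Λ, hΛ⟩ := exists_rep (T : Entire n →ₗ[ℂ] ℂ) hM (C := C) (fun f F hF hfF => by
    have h1 := hb f.1 f.2 F hF hfF
    rw [act_eq] at h1
    exact h1)
  set incl : C(M, ω) := ⟨fun z => ⟨z, hMω z.2⟩, by fun_prop⟩ with hincl
  have hcont : Continuous fun g : Hol ω => Λ (g.1.comp incl) :=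
    Λ.continuous.comp ((ContinuousMap.continuous_precomp incl).comp continuous_subtype_val)
  refine ⟨⟨{ toFun := fun g : Hol ω => Λ (g.1.comp incl)
             map_add' := fun g g' => by
               rw [← map_add]; rfl
             map_smul' := fun c g => by
               rw [RingHom.id_apply, ← map_smul]; rfl }, hcont⟩, fun f => ?_⟩
  exact (hΛ f).symm

/-! ## Uniqueness of the C-support of a real polytope -/

theorem polytope_unique (hn : n ≠ 0) {W : Set (Fin n → ℂ)} (hWf : W.Finite)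
    (hW : ∀ v ∈ W, ∀ j, (v j).im = 0) : IsUniqueCSupport (convexHull ℝ W) := by
  refine ⟨convex_convexHull ℝ W, hWf.isCompact_convexHull (𝕜 := ℝ), fun T hK L hL => ?_⟩
  have hsub : convexHull ℝ W ⊆ L := by
    by_contra hnot
    obtain ⟨a, ha, η, hηL, hηW⟩ := _root_.H721CS.exists_vertex hWf hW hL.convex hL.carrier.compact hnot
    obtain ⟨K', hK'sub, hK'conv, hK'c, haK', hcar⟩ := _root_.H721CS.cut hn hWf hW
      (car_of_isCarrier hK.carrier) (car_of_isCarrier hL.carrier) hL.carrier.compact ha hηL hηW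
    have := hK.minimal K' hK'conv (isCarrier_of_carB hK'c hcar) hK'sub
    exact haK' (this ▸ subset_convexHull ℝ W ha)
  exact (hL.minimal _ hK.convex hK.carrier hsub).symm

/-! ## The simplex -/

/-- the vertices -/
def verts (n : ℕ) : Set (Fin n → ℂ) :=
  insert 0 (range fun i : Fin n => (Pi.single i (1 : ℂ) : Fin n → ℂ))

lemma verts_finite : (verts n).Finite := (finite_range _).insert _

lemma verts_coord {z : Fin n → ℂ} (hz : z ∈ verts n) (i : Fin n) : z i = 0 ∨ z i = 1 := by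
  rcases hz with rfl | ⟨j, rfl⟩
  · left; rfl
  · by_cases h : j = i
    · subst h; right; simp
    · left; simp [Ne.symm h]

lemma simplex_unique (hn : n ≠ 0) : IsUniqueCSupport (simplex n) :=
  polytope_unique hn verts_finite (fun v hv j => by
    rcases verts_coord hv j with h | h <;> simp [h])

lemma zero_mem : (0 : Fin n → ℂ) ∈ simplex n := subset_convexHull ℝ _ (mem_insert _ _)

lemma single_mem (i : Fin n) : (Pi.single i (1 : ℂ) : Fin n → ℂ) ∈ simplex n :=
  subset_convexHull ℝ _ (mem_insert_of_mem _ (mem_range_self i))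

lemma simplex_coord {z : Fin n → ℂ} (hz : z ∈ simplex n) (i : Fin n) :
    0 ≤ (z i).re ∧ (z i).re ≤ 1 := by
  have hc : Convex ℝ {z : Fin n → ℂ | 0 ≤ (z i).re ∧ (z i).re ≤ 1} := by
    intro x hx y hy s t hs ht hst
    have h1 := hx.1
    have h2 := hx.2
    have h3 := hy.1
    have h4 := hy.2
    have e : ((s • x + t • y) i).re = s * (x i).re + t * (y i).re := by
      simp [Complex.add_re]
    refine ⟨?_, ?_⟩
    · rw [e]; positivity
    · rw [e]
      have : s * (x i).re + t * (y i).re ≤ s * 1 + t * 1 :=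
        add_le_add (mul_le_mul_of_nonneg_left h2 hs) (mul_le_mul_of_nonneg_left h4 ht)
      linarith
  refine convexHull_min (fun v hv => ?_) hc hz
  rcases verts_coord hv i with h | h <;> simp [h]

lemma V_simplex : V (simplex n) = ⊤ := by
  classical
  rw [V]
  refine (AffineSubspace.ext_of_direction_eq ?_ ⟨0, subset_affineSpan ℂ _ zero_mem, trivial⟩)
  rw [AffineSubspace.direction_top, eq_top_iff]
  intro w _
  rw [← Finset.univ_sum_single w]
  refine Submodule.sum_mem _ fun i _ => ?_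
  have h1 : (Pi.single i (1 : ℂ) : Fin n → ℂ) -ᵥ (0 : Fin n → ℂ) ∈
      (affineSpan ℂ (simplex n)).direction :=
    AffineSubspace.vsub_mem_direction (subset_affineSpan ℂ _ (single_mem i))
      (subset_affineSpan ℂ _ zero_mem)
  rw [vsub_eq_sub, sub_zero] at h1
  have h2 : (Pi.single i (w i) : Fin n → ℂ) = w i • Pi.single i (1 : ℂ) := by
    rw [← Pi.single_smul]; simp
  rw [h2]
  exact Submodule.smul_mem _ _ h1

/-- the coordinate hyperplane through `z` -/
def coordPlane (z : Fin n → ℂ) (i : Fin n) : AffineSubspace ℂ (Fin n → ℂ) :=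
  AffineSubspace.mk' z (LinearMap.ker (LinearMap.proj (R := ℂ) (φ := fun _ : Fin n => ℂ) i))

lemma mem_coordPlane {z w : Fin n → ℂ} {i : Fin n} : w ∈ coordPlane z i ↔ w i = z i := by
  rw [coordPlane, AffineSubspace.mem_mk']
  simp [sub_eq_zero]

lemma coordPlane_supporting {J : Set (Fin n → ℂ)}
    (hJ : ∀ w ∈ J, ∀ i, w i ≠ 0 ∧ w i ≠ 1) {z : Fin n → ℂ} (hz : z ∈ verts n) (i : Fin n) :
    IsComplexSupporting J (simplex n) (coordPlane z i) := by
  refine ⟨?_, ?_, ⟨z, mem_coordPlane.2 rfl, subset_convexHull ℝ _ hz⟩, ?_⟩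
  · rw [V_simplex]; exact le_top
  · rw [V_simplex, AffineSubspace.direction_top, finrank_top, coordPlane,
      AffineSubspace.direction_mk']
    have h := LinearMap.finrank_range_add_finrank_ker
      (LinearMap.proj (R := ℂ) (φ := fun _ : Fin n => ℂ) i)
    have h2 : LinearMap.range (LinearMap.proj (R := ℂ) (φ := fun _ : Fin n => ℂ) i) = ⊤ :=
      LinearMap.range_eq_top.2 (LinearMap.proj_surjective i)
    rw [h2, finrank_top, Module.finrank_self] at h
    omega
  · rw [Set.disjoint_left]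
    intro w hw hwJ
    have h1 : w i = z i := mem_coordPlane.1 hw
    rcases verts_coord hz i with h | h
    · exact (hJ w hwJ i).1 (h1.trans h)
    · exact (hJ w hwJ i).2 (h1.trans h)

lemma S₀_simplex (hn : 2 ≤ n) {J : Set (Fin n → ℂ)} (hJ : ∀ w ∈ J, ∀ i, w i ≠ 0 ∧ w i ≠ 1) :
    S₀ J (simplex n) = ∅ := by
  rw [eq_empty_iff_forall_notMem]
  rintro h ⟨-, z, hz, -, P, -, hP⟩
  have hzv : z ∈ verts n := extremePoints_convexHull_subset hz
  set i₀ : Fin n := ⟨0, by omega⟩
  set i₁ : Fin n := ⟨1, by omega⟩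
  have hne : i₀ ≠ i₁ := by simp [i₀, i₁]
  have h0 := hP (coordPlane z i₀) ⟨coordPlane_supporting hJ hzv i₀, mem_coordPlane.2 rfl⟩
  have h1 := hP (coordPlane z i₁) ⟨coordPlane_supporting hJ hzv i₁, mem_coordPlane.2 rfl⟩
  have h2 : z + Pi.single i₁ 1 ∈ coordPlane z i₀ := by
    rw [mem_coordPlane]; simp [hne]
  rw [h0, ← h1, mem_coordPlane] at h2
  simp at h2

/-- a point in the interior of `simplex n` relative to an affine space containing the coordinate
directions has no coordinate `0` or `1` -/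
lemma coord_of_nhds {A : Set (Fin n → ℂ)} {w : Fin n → ℂ}
    (hA : ∀ (i : Fin n) (ε : ℝ), w + (ε : ℂ) • (Pi.single i (1 : ℂ) : Fin n → ℂ) ∈ A)
    (h : simplex n ∈ 𝓝[A] w) (i : Fin n) : w i ≠ 0 ∧ w i ≠ 1 := by
  have hcont : Tendsto (fun ε : ℝ => w + (ε : ℂ) • (Pi.single i (1 : ℂ) : Fin n → ℂ)) (𝓝 0)
      (𝓝[A] w) := by
    refine tendsto_nhdsWithin_iff.2 ⟨?_, Eventually.of_forall fun ε => hA i ε⟩
    have : Continuous fun ε : ℝ => w + (ε : ℂ) • (Pi.single i (1 : ℂ) : Fin n → ℂ) := by fun_prop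
    simpa using this.tendsto 0
  have h1 := hcont.eventually h
  obtain ⟨δ, hδ, hb⟩ := Metric.eventually_nhds_iff.1 h1
  have hp := simplex_coord (hb (y := δ / 2) (by
    rw [Real.dist_eq, sub_zero, abs_of_pos (by positivity)]; linarith)) i
  have hm := simplex_coord (hb (y := -(δ / 2)) (by
    rw [Real.dist_eq, sub_zero, abs_neg, abs_of_pos (by positivity)]; linarith)) i
  simp only [Pi.add_apply, Pi.smul_apply, Pi.single_eq_same, smul_eq_mul, mul_one,
    Complex.add_re, Complex.ofReal_re] at hp hm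
  refine ⟨fun h => ?_, fun h => ?_⟩
  · rw [h, Complex.zero_re] at hm; linarith
  · rw [h, Complex.one_re] at hp; linarith

lemma relInterior_coord : ∀ w ∈ relInterior (simplex n), ∀ i, w i ≠ 0 ∧ w i ≠ 1 := by
  rintro w ⟨-, hw⟩ i
  refine coord_of_nhds (fun i ε => ?_) hw i
  rw [V_simplex]; trivial

lemma intrinsicInterior_coord :
    ∀ w ∈ intrinsicInterior ℝ (simplex n), ∀ i, w i ≠ 0 ∧ w i ≠ 1 := by
  rintro w hw i
  obtain ⟨y, hy, rfl⟩ := mem_intrinsicInterior.1 hw
  rw [mem_interior_iff_mem_nhds] at hy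
  have hy' : simplex n ∈ 𝓝[(affineSpan ℝ (simplex n) : Set (Fin n → ℂ))] (y : Fin n → ℂ) :=
    preimage_coe_mem_nhds_subtype.1 hy
  refine coord_of_nhds (fun i ε => ?_) hy' i
  have h1 : (Pi.single i (1 : ℂ) : Fin n → ℂ) -ᵥ (0 : Fin n → ℂ) ∈
      (affineSpan ℝ (simplex n)).direction :=
    AffineSubspace.vsub_mem_direction (subset_affineSpan ℝ _ (single_mem i))
      (subset_affineSpan ℝ _ zero_mem)
  rw [vsub_eq_sub, sub_zero] at h1
  have h2 := AffineSubspace.vadd_mem_of_mem_direction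
    ((affineSpan ℝ (simplex n)).direction.smul_mem ε h1) y.2
  rw [vadd_eq_add, add_comm] at h2
  have h3 : (ε : ℂ) • (Pi.single i (1 : ℂ) : Fin n → ℂ) = ε • (Pi.single i (1 : ℂ) : Fin n → ℂ) := by
    ext j; simp
  rw [h3]
  exact h2

lemma S_nonempty (hn : 2 ≤ n) : (S (simplex n)).Nonempty := by
  set i₀ : Fin n := ⟨0, by omega⟩
  have hu : ∑ j, ‖(Pi.single i₀ (-1 : ℂ) : Fin n → ℂ) j‖ ^ 2 = 1 := by
    rw [Finset.sum_eq_single i₀]
    · simp
    · intro j _ hj; simp [hj]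
    · intro h; exact absurd (Finset.mem_univ _) h
  have hh : ∀ z, height ⟨(Pi.single i₀ (-1 : ℂ) : Fin n → ℂ), hu⟩ z = -(z i₀).re := by
    intro z
    rw [height, Finset.sum_eq_single i₀]
    · simp
    · intro j _ hj; simp [hj]
    · intro h; exact absurd (Finset.mem_univ _) h
  refine ⟨toHyperplane (⟨(Pi.single i₀ (-1 : ℂ) : Fin n → ℂ), hu⟩, 0), ⟨0, ?_, zero_mem⟩,
    _, rfl, fun z hz => ?_⟩
  · change height _ 0 = 0
    rw [hh]; simp
  · simp only
    rw [hh]
    have := (simplex_coord hz i₀).1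
    linarith

theorem main (n : ℕ) (hn : 2 ≤ n) :
    IsUniqueCSupport (simplex n) ∧
    closure (S₀ (relInterior (simplex n)) (simplex n)) ⊂ S (simplex n) ∧
    closure (S₀ (intrinsicInterior ℝ (simplex n)) (simplex n)) ⊂ S (simplex n) := by
  refine ⟨simplex_unique (by omega), ?_, ?_⟩
  · rw [S₀_simplex hn relInterior_coord, closure_empty]
    exact empty_ssubset.2 (S_nonempty hn)
  · rw [S₀_simplex hn intrinsicInterior_coord, closure_empty]
    exact empty_ssubset.2 (S_nonempty hn)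

end Pool.Agent.H721CS
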