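import Pool.Agent.H721CS.Lower

/-!
# Carriers from decay
-/

open Complex Set Metric Topology MeasureTheory Filter
namespace H721CS
variable {n : ℕ}

/-- locally uniform decay of `T` on the Gaussians centred at `z` -/
def LD (T : ((Fin n → ℂ) → ℂ) → ℂ) (z : Fin n → ℂ) : Prop :=
  ∃ r : ℝ, 0 < r ∧ ∃ c : ℝ, 0 < c ∧ ∃ C : ℝ, 0 < C ∧ ∀ t : ℝ, 0 ≤ t → ∀ z' ∈ closedBall z r,
    ‖T (fun w => cexp (-(t * Dq z' w)))‖ ≤ C * Real.exp (-c * t)

lemma LD_compact {T : ((Fin n → ℂ) → ℂ) → ℂ} {Z : Set (Fin n → ℂ)} (hZ : IsCompact Z)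
    (h : ∀ z ∈ Z, LD T z) : ∃ c : ℝ, 0 < c ∧ ∃ C : ℝ, 0 < C ∧ ∀ t : ℝ, 0 ≤ t → ∀ z ∈ Z,
    ‖T (fun w => cexp (-(t * Dq z w)))‖ ≤ C * Real.exp (-c * t) := by
  refine hZ.induction_on (p := fun Z => ∃ c : ℝ, 0 < c ∧ ∃ C : ℝ, 0 < C ∧ ∀ t : ℝ, 0 ≤ t →
    ∀ z ∈ Z, ‖T (fun w => cexp (-(t * Dq z w)))‖ ≤ C * Real.exp (-c * t)) ?_ ?_ ?_ ?_
  · exact ⟨1, one_pos, 1, one_pos, by simp⟩
  · rintro s s' hss' ⟨c, hc, C, hC, hb⟩
    exact ⟨c, hc, C, hC, fun t ht z hz => hb t ht z (hss' hz)⟩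
  · rintro s s' ⟨c, hc, C, hC, hb⟩ ⟨c', hc', C', hC', hb'⟩
    refine ⟨min c c', lt_min hc hc', max C C', by positivity, fun t ht z hz => ?_⟩
    rcases hz with hz | hz
    · refine (hb t ht z hz).trans (mul_le_mul (le_max_left _ _) (Real.exp_le_exp.2 ?_)
        (Real.exp_pos _).le (by positivity))
      nlinarith [min_le_left c c']
    · refine (hb' t ht z hz).trans (mul_le_mul (le_max_right _ _) (Real.exp_le_exp.2 ?_)
        (Real.exp_pos _).le (by positivity))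
      nlinarith [min_le_right c c']
  · intro z hz
    obtain ⟨r, hr, c, hc, C, hC, hb⟩ := h z hz
    exact ⟨closedBall z r, mem_nhdsWithin_of_mem_nhds (closedBall_mem_nhds z hr), c, hc, C, hC, hb⟩

lemma Car.map_sub {T : ((Fin n → ℂ) → ℂ) → ℂ} {K : Set (Fin n → ℂ)} (hT : Car T K)
    {f g : (Fin n → ℂ) → ℂ} (hf : Differentiable ℂ f) (hg : Differentiable ℂ g) (c : ℂ) :
    T (fun w => c * f w - g w) = c * T f - T g := by
  obtain ⟨M, hM, -, Λ, hΛ⟩ := hT univ isOpen_univ (subset_univ _)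
  have h1 := hΛ ⟨f, hf.continuous⟩ hf
  have h2 := hΛ ⟨g, hg.continuous⟩ hg
  have h3 := hΛ ⟨fun w => c * f w - g w, (continuous_const.mul hf.continuous).sub hg.continuous⟩
    ((differentiable_const c).mul hf |>.sub hg)
  simp only [ContinuousMap.coe_mk] at h1 h2 h3
  have h4 : (⟨fun w => c * f w - g w, (continuous_const.mul hf.continuous).sub hg.continuous⟩ :
      C(Fin n → ℂ, ℂ)).restrict M = c • (⟨f, hf.continuous⟩ : C(Fin n → ℂ, ℂ)).restrict M -
      (⟨g, hg.continuous⟩ : C(Fin n → ℂ, ℂ)).restrict M := rfl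
  rw [h3, h4, _root_.map_sub, _root_.map_smul, smul_eq_mul, ← h1, ← h2]

lemma tendsto_pow_exp (n : ℕ) {c : ℝ} (hc : 0 < c) :
    Tendsto (fun S : ℝ => S ^ n * Real.exp (-c * S)) atTop (𝓝 0) := by
  have h := (Real.tendsto_pow_mul_exp_neg_atTop_nhds_zero n).comp
    (tendsto_id.const_mul_atTop hc : Tendsto (fun S : ℝ => c * S) atTop atTop)
  have h2 := h.const_mul ((c ^ n)⁻¹)
  rw [mul_zero] at h2
  refine h2.congr fun S => ?_
  simp only [Function.comp_apply]
  rw [mul_pow]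
  have : c ^ n ≠ 0 := by positivity
  field_simp

theorem car_of_decay {T : ((Fin n → ℂ) → ℂ) → ℂ} {K : Set (Fin n → ℂ)} (hT : Car T K)
    (hKc : IsCompact K) (hreal : ∀ w ∈ K, ∀ j, (w j).im = 0) (hn : n ≠ 0)
    {Q : Set (Fin n → ℂ)} (hQ : IsCompact Q) (hLD : ∀ z ∉ Q, LD T z)
    (hLDj : ∀ z ∉ Q, ∀ j : Fin n, LD (mulT (fun w => w j) T) z)
    {ω : Set (Fin n → ℂ)} (hω : IsOpen ω) (hQω : Q ⊆ ω) :
    ∃ M : Set (Fin n → ℂ), IsCompact M ∧ M ⊆ ω ∧ ∃ C : ℝ, 0 ≤ C ∧
      ∀ f : (Fin n → ℂ) → ℂ, Differentiable ℂ f → ∀ F : ℝ, 0 ≤ F → (∀ z ∈ M, ‖f z‖ ≤ F) →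
      ‖T f‖ ≤ C * F := by
  obtain ⟨Q₂, hQ₂c, hQQ₂, hQ₂ω⟩ := exists_compact_between hQ hω hQω
  obtain ⟨χr, hχ1, hχ0, hχI⟩ := exists_contMDiffMap_one_nhds_of_subset_interior
    (modelWithCornersSelf ℝ (Fin n → ℂ)) (n := 1) (s := Q) (t := Q₂) hQ.isClosed hQQ₂
  have hχr : ContDiff ℝ 1 χr := χr.contMDiff.contDiff
  set χ : (Fin n → ℂ) → ℂ := fun z => (χr z : ℂ) with hχdef
  have hχ : ContDiff ℝ 1 χ := Complex.ofRealCLM.contDiff.comp hχr
  have hts : tsupport χ ⊆ Q₂ := by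
    refine closure_minimal ?_ hQ₂c.isClosed
    intro z hz
    by_contra h
    exact hz (by simp [hχdef, hχ0 z h])
  have hcs : HasCompactSupport χ := HasCompactSupport.intro hQ₂c
    (fun z hz => by simp [hχdef, hχ0 z hz])
  obtain ⟨U, hU, hQU, hχU⟩ := (mem_nhdsSet_iff_exists.1 hχ1 : ∃ U, IsOpen U ∧ Q ⊆ U ∧ _)
  -- a big ball
  obtain ⟨R, hRK, hRQ⟩ : ∃ R : ℝ, (∀ w ∈ K, ‖w‖ < R - 1) ∧ Q₂ ⊆ closedBall 0 R := by
    obtain ⟨R₁, hR₁⟩ := hKc.isBounded.exists_norm_le
    obtain ⟨R₂, hR₂⟩ := hQ₂c.isBounded.exists_norm_le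
    refine ⟨max (R₁ + 2) R₂, fun w hw => ?_, fun w hw => ?_⟩
    · have := hR₁ w hw
      have := le_max_left (R₁ + 2) R₂
      linarith
    · rw [mem_closedBall, dist_zero_right]
      exact (hR₂ w hw).trans (le_max_right _ _)
  set B : Set (Fin n → ℂ) := closedBall 0 R with hBdef
  have hB : IsCompact B := isCompact_closedBall _ _
  have hZ : IsCompact (B \ U) := hB.diff hU
  have hZQ : ∀ z ∈ B \ U, z ∉ Q := fun z hz hzQ => hz.2 (hQU hzQ)
  obtain ⟨c, hc, C, hC, hdec⟩ := LD_compact hZ fun z hz => hLD z (hZQ z hz)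
  choose cj hcj Cj hCj hdecj using fun j : Fin n =>
    LD_compact hZ fun z hz => hLDj z (hZQ z hz) j
  -- decay of the vector field
  have hfin : (Finset.univ : Finset (Fin n)).Nonempty := by
    obtain ⟨m, rfl⟩ := Nat.exists_eq_succ_of_ne_zero hn
    exact Finset.univ_nonempty
  set c' : ℝ := min c (Finset.univ.inf' hfin cj) with hc'
  have hc'0 : 0 < c' := lt_min hc ((Finset.lt_inf'_iff hfin).2 fun j _ => hcj j)
  have hR0 : 0 ≤ |R| := abs_nonneg R
  set C' : ℝ := |R| * C + ∑ j, Cj j with hC'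
  have hC'0 : 0 ≤ C' := by
    have : 0 ≤ ∑ j, Cj j := Finset.sum_nonneg fun j _ => (hCj j).le
    positivity
  have dexp : ∀ (t : ℝ) (z : Fin n → ℂ), Differentiable ℂ fun w => cexp (-(t * Dq z w)) :=
    fun t z => Complex.differentiable_exp.comp
      ((differentiable_const _).mul (differentiable_Dq_right z)).neg
  have hfield : ∀ j, ∀ t : ℝ, 0 ≤ t → ∀ z ∈ B, db χ j z ≠ 0 →
      ‖T (fun w => (starRingEnd ℂ (z j) - w j) * cexp (-(t * Dq z w)))‖ ≤
        C' * Real.exp (-c' * t) := by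
    intro j t ht z hz hne
    have hzU : z ∉ U := by
      intro hzU
      apply hne
      have h1 : χ =ᶠ[𝓝 z] fun _ => (1 : ℂ) := by
        filter_upwards [hU.mem_nhds hzU] with y hy
        have : χr y = 1 := hχU hy
        simp [hχdef, this]
      have h2 : fderiv ℝ χ z = 0 := by rw [h1.fderiv_eq]; simp
      simp [db, h2]
    have e1 : (fun w : Fin n → ℂ => (starRingEnd ℂ (z j) - w j) * cexp (-(t * Dq z w))) =
        fun w => starRingEnd ℂ (z j) * cexp (-(t * Dq z w)) - w j * cexp (-(t * Dq z w)) := by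
      funext w; ring
    have e3 := hT.map_sub (f := fun w => cexp (-(t * Dq z w)))
      (g := fun w => w j * cexp (-(t * Dq z w))) (dexp t z)
      ((by fun_prop : Differentiable ℂ fun w : Fin n → ℂ => w j).mul (dexp t z))
      (starRingEnd ℂ (z j))
    rw [e1, e3]
    refine (norm_sub_le _ _).trans ?_
    have h1 := hdec t ht z ⟨hz, hzU⟩
    have h2 := hdecj j t ht z ⟨hz, hzU⟩
    simp only [mulT] at h2
    have h3 : ‖starRingEnd ℂ (z j)‖ ≤ |R| := by
      rw [RCLike.norm_conj]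
      refine (norm_le_pi_norm z j).trans ?_
      rw [hBdef, mem_closedBall, dist_zero_right] at hz
      exact hz.trans (le_abs_self R)
    have h4 : Real.exp (-c * t) ≤ Real.exp (-c' * t) := by
      apply Real.exp_le_exp.2
      nlinarith [min_le_left c (Finset.univ.inf' hfin cj)]
    have h5 : Real.exp (-cj j * t) ≤ Real.exp (-c' * t) := by
      apply Real.exp_le_exp.2
      have : c' ≤ cj j := (min_le_right _ _).trans (Finset.inf'_le _ (Finset.mem_univ j))
      nlinarith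
    have h6 : Cj j ≤ ∑ j, Cj j :=
      Finset.single_le_sum (f := Cj) (fun i _ => (hCj i).le) (Finset.mem_univ j)
    rw [norm_mul]
    calc ‖starRingEnd ℂ (z j)‖ * ‖T fun w => cexp (-(t * Dq z w))‖ +
          ‖T fun w => w j * cexp (-(t * Dq z w))‖ ≤
          |R| * (C * Real.exp (-c' * t)) + (∑ j, Cj j) * Real.exp (-c' * t) := by
            refine add_le_add (mul_le_mul h3 (h1.trans (mul_le_mul_of_nonneg_left h4 hC.le))
              (norm_nonneg _) hR0) (h2.trans ?_)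
            exact mul_le_mul h6 h5 (Real.exp_pos _).le ((hCj j).le.trans h6)
      _ = C' * Real.exp (-c' * t) := by rw [hC']; ring
  obtain ⟨Cu, hCu, hup⟩ := upper hT hn hχ hcs hB (hts.trans hRQ) hC'0 hc'0 hfield
  obtain ⟨A, hA, hlow⟩ := lower hT hreal (R := R) (κ := 1) one_pos hRK
  obtain ⟨c₁, hc₁, hgw⟩ := gw_lower (n := n) (κ := 1) one_pos
  refine ⟨Q₂, hQ₂c, hQ₂ω, Cu / c₁, by positivity, ?_⟩
  intro f hf F hF hfF
  obtain ⟨FB, hFB⟩ := hB.exists_bound_of_continuousOn hf.continuous.continuousOn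
  have hFB0 : 0 ≤ max FB 0 := le_max_right _ _
  have hFB' : ∀ z ∈ B, ‖f z‖ ≤ max FB 0 := fun z hz => (hFB z hz).trans (le_max_left _ _)
  set V : ℝ := (volume B).toReal with hV
  have hV0 : 0 ≤ V := ENNReal.toReal_nonneg
  have hvol : volume B < ⊤ := hB.measure_lt_top
  have key : ∀ S : ℝ, 1 ≤ S → c₁ * ‖T f‖ ≤ Cu * F + (A * max FB 0) *
      (S ^ n * Real.exp (-(1 ^ 2 / 4) * S)) + (max FB 0 * C * V) * (S ^ n * Real.exp (-c * S)) := by
    intro S hS
    have hS0 : 0 ≤ S := by linarith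
    have hSn : ‖(S : ℂ) ^ n‖ = S ^ n := by rw [norm_pow, Complex.norm_real, Real.norm_of_nonneg hS0]
    have hcont : Continuous fun z => T (fun w => cexp (-(S * Dq z w))) :=
      hT.continuous (Complex.continuous_exp.comp (continuous_const.mul continuous_Dq).neg)
        (dexp S)
    have h1 := hlow f hf (max FB 0) hFB0 hFB' S hS0
    have h2 := hup f hf F hF (fun z hz => hfF z (hts hz)) S hS0
    have h3 : ‖(∫ z in B, f z * T (fun w => cexp (-(S * Dq z w)))) -
        ∫ z in B, (χ z * f z) * T (fun w => cexp (-(S * Dq z w)))‖ ≤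
        (max FB 0 * C * Real.exp (-c * S)) * V := by
      rw [← integral_sub]
      · refine norm_setIntegral_le_of_norm_le_const hvol fun z hz => ?_
        by_cases hzU : z ∈ U
        · have : χr z = 1 := hχU hzU
          have h4 : χ z = 1 := by simp [hχdef, this]
          rw [h4]; simp only [one_mul, sub_self, norm_zero]; positivity
        · have h4 : f z * T (fun w => cexp (-(S * Dq z w))) -
              χ z * f z * T (fun w => cexp (-(S * Dq z w))) =
              (1 - χ z) * f z * T (fun w => cexp (-(S * Dq z w))) := by ring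
          rw [h4, norm_mul, norm_mul]
          have h5 : ‖1 - χ z‖ ≤ 1 := by
            have h6 := hχI z
            have : (1 - χ z) = ((1 - χr z : ℝ) : ℂ) := by simp [hχdef]
            rw [this, Complex.norm_real, Real.norm_of_nonneg (by linarith [h6.2])]
            linarith [h6.1]
          have h7 := hdec S hS0 z ⟨hz, hzU⟩
          calc ‖1 - χ z‖ * ‖f z‖ * ‖T fun w => cexp (-(S * Dq z w))‖ ≤
                1 * max FB 0 * (C * Real.exp (-c * S)) := by
                  refine mul_le_mul (mul_le_mul h5 (hFB' z hz) (norm_nonneg _) zero_le_one) h7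
                    (norm_nonneg _) (by positivity)
            _ = _ := by ring
      · exact ContinuousOn.integrableOn_compact hB (hf.continuous.mul hcont).continuousOn
      · exact ContinuousOn.integrableOn_compact hB
          ((hχ.continuous.mul hf.continuous).mul hcont).continuousOn
    set X := ∫ z in B, f z * T (fun w => cexp (-(S * Dq z w))) with hX
    set Y := ∫ z in B, (χ z * f z) * T (fun w => cexp (-(S * Dq z w))) with hY
    set I₀ := ∫ Z in closedBall (0 : Fin n → ℂ) 1, gw S Z with hI₀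
    have e2 : (S : ℂ) ^ n * I₀ * T f = (S : ℂ) ^ n * Y + (S : ℂ) ^ n * (X - Y) -
        (S : ℂ) ^ n * (X - I₀ * T f) := by ring
    calc c₁ * ‖T f‖ ≤ ‖(S : ℂ) ^ n * I₀‖ * ‖T f‖ :=
          mul_le_mul_of_nonneg_right (hgw S hS) (norm_nonneg _)
      _ = ‖(S : ℂ) ^ n * I₀ * T f‖ := (norm_mul _ _).symm
      _ = ‖(S : ℂ) ^ n * Y + (S : ℂ) ^ n * (X - Y) - (S : ℂ) ^ n * (X - I₀ * T f)‖ := by rw [e2]
      _ ≤ ‖(S : ℂ) ^ n * Y‖ + ‖(S : ℂ) ^ n * (X - Y)‖ + ‖(S : ℂ) ^ n * (X - I₀ * T f)‖ :=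
          (norm_sub_le _ _).trans (add_le_add_left (norm_add_le _ _) _)
      _ ≤ Cu * F + S ^ n * ((max FB 0 * C * Real.exp (-c * S)) * V) +
          S ^ n * (A * max FB 0 * Real.exp (-(1 ^ 2 / 4) * S)) := by
          have h8 : ‖(S : ℂ) ^ n * (X - Y)‖ ≤ S ^ n * ((max FB 0 * C * Real.exp (-c * S)) * V) := by
            rw [norm_mul, hSn]
            exact mul_le_mul_of_nonneg_left h3 (by positivity)
          have h9 : ‖(S : ℂ) ^ n * (X - I₀ * T f)‖ ≤
              S ^ n * (A * max FB 0 * Real.exp (-(1 ^ 2 / 4) * S)) := by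
            rw [norm_mul, hSn]
            exact mul_le_mul_of_nonneg_left h1 (by positivity)
          linarith
      _ = _ := by ring
  have hlim : Tendsto (fun S : ℝ => Cu * F + (A * max FB 0) *
      (S ^ n * Real.exp (-(1 ^ 2 / 4) * S)) + (max FB 0 * C * V) * (S ^ n * Real.exp (-c * S)))
      atTop (𝓝 (Cu * F + (A * max FB 0) * 0 + (max FB 0 * C * V) * 0)) :=
    ((tendsto_pow_exp n (by norm_num : (0 : ℝ) < 1 ^ 2 / 4)).const_mul _ |>.const_add _).add
      ((tendsto_pow_exp n hc).const_mul _)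
  have hfinal := ge_of_tendsto hlim (eventually_atTop.2 ⟨1, fun S hS => key S hS⟩)
  rw [mul_zero, mul_zero, add_zero, add_zero] at hfinal
  rw [div_mul_eq_mul_div, le_div_iff₀ hc₁]
  linarith

end H721CS
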