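import Pool.Agent.H721CS.Decay

/-!
# Integration by parts against the Gaussian kernel
-/

open Complex Set Metric Topology MeasureTheory
namespace H721CS
variable {n : ℕ}

/-- directional derivatives of an entire function of several variables are continuous -/
lemma continuous_fderiv_apply {f : (Fin n → ℂ) → ℂ} (hf : Differentiable ℂ f) (v : Fin n → ℂ) :
    Continuous (fun z => fderiv ℂ f z v) := by
  have key : ∀ z, fderiv ℂ f z v =
      (2 * Real.pi * I : ℂ)⁻¹ * ∮ ζ in C(0, 1), (1 / (ζ - 0) ^ 2) • f (z + ζ • v) := by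
    intro z
    have hl : Differentiable ℂ (fun ζ : ℂ => f (z + ζ • v)) :=
      hf.comp ((differentiable_const z).add (differentiable_id.smul_const v))
    have h1 : deriv (fun ζ : ℂ => f (z + ζ • v)) 0 = fderiv ℂ f z v := by
      have h2 : HasDerivAt (fun ζ : ℂ => z + ζ • v) v 0 := by
        simpa using ((hasDerivAt_id (0 : ℂ)).smul_const v).const_add z
      have h3 : HasFDerivAt f (fderiv ℂ f z) (z + (0 : ℂ) • v) := by
        simpa using (hf z).hasFDerivAt
      exact (h3.comp_hasDerivAt (0 : ℂ) h2).deriv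
    rw [← h1, (hl.differentiableOn).deriv_eq_smul_circleIntegral one_pos, smul_eq_mul, ← mul_assoc,
      inv_mul_cancel₀ Complex.two_pi_I_ne_zero, one_mul]
  simp_rw [key]
  refine continuous_const.mul ?_
  simp only [circleIntegral]
  refine intervalIntegral.continuous_parametric_intervalIntegral_of_continuous' ?_ _ _
  have hne : ∀ x : (Fin n → ℂ) × ℝ, (circleMap 0 1 x.2 - 0) ^ 2 ≠ 0 := by
    intro x
    simp [circleMap]
  have c1 : Continuous fun x : (Fin n → ℂ) × ℝ => 1 / (circleMap 0 1 x.2 - 0) ^ 2 := by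
    refine continuous_const.div ?_ hne
    exact (((continuous_circleMap 0 1).comp continuous_snd).sub continuous_const).pow 2
  have c2 : Continuous fun x : (Fin n → ℂ) × ℝ => f (x.1 + circleMap 0 1 x.2 • v) :=
    hf.continuous.comp (continuous_fst.add
      (((continuous_circleMap 0 1).comp continuous_snd).smul continuous_const))
  have c3 : Continuous fun x : (Fin n → ℂ) × ℝ => deriv (circleMap 0 1) x.2 := by
    simp only [deriv_circleMap]
    exact ((continuous_circleMap 0 1).comp continuous_snd).mul continuous_const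
  exact c3.smul (c1.smul c2)

/-- the bilinear square `(z - w)·(z̄ - w)` -/
@[irreducible] noncomputable def Dq (z w : Fin n → ℂ) : ℂ :=
  ∑ j, (z j - w j) * (starRingEnd ℂ (z j) - w j)

lemma Dq_line (z w : Fin n → ℂ) (j : Fin n) (c : ℂ) (s : ℝ) :
    Dq (z + s • (Pi.single j c : Fin n → ℂ)) w = Dq z w +
      s * (c * (starRingEnd ℂ (z j) - w j) + (z j - w j) * starRingEnd ℂ c) +
      s ^ 2 * (c * starRingEnd ℂ c) := by
  classical
  simp only [Dq]
  rw [← Finset.add_sum_erase _ _ (Finset.mem_univ j), ← Finset.add_sum_erase Finset.univ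
    (fun k => (z k - w k) * (starRingEnd ℂ (z k) - w k)) (Finset.mem_univ j)]
  have : ∑ x ∈ Finset.univ.erase j, ((z + s • (Pi.single j c : Fin n → ℂ)) x - w x) *
      (starRingEnd ℂ ((z + s • (Pi.single j c : Fin n → ℂ)) x) - w x) =
      ∑ x ∈ Finset.univ.erase j, (z x - w x) * (starRingEnd ℂ (z x) - w x) := by
    refine Finset.sum_congr rfl fun k hk => ?_
    have hk' : k ≠ j := Finset.ne_of_mem_erase hk
    simp [hk']
  rw [this]
  simp only [Pi.add_apply, Pi.smul_apply, Pi.single_eq_same, Complex.real_smul, map_add, map_mul,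
    Complex.conj_ofReal]
  ring

lemma continuous_Dq : Continuous (fun x : (Fin n → ℂ) × (Fin n → ℂ) => Dq x.1 x.2) := by
  simp only [Dq]
  refine continuous_finsetSum _ fun j _ => ?_
  have h1 : Continuous fun x : (Fin n → ℂ) × (Fin n → ℂ) => x.1 j := by fun_prop
  have h2 : Continuous fun x : (Fin n → ℂ) × (Fin n → ℂ) => x.2 j := by fun_prop
  exact (h1.sub h2).mul ((Complex.continuous_conj.comp h1).sub h2)

lemma differentiable_Dq_right (z : Fin n → ℂ) : Differentiable ℂ (Dq z) := by
  unfold Dq; fun_prop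

/-- the field whose `∂̄` is the derivative of the kernel -/
noncomputable def Gj (f : (Fin n → ℂ) → ℂ) (w : Fin n → ℂ) (t : ℝ) (j : Fin n)
    (z : Fin n → ℂ) : ℂ :=
  f z * ((starRingEnd ℂ (z j) - w j) * cexp (-(t * Dq z w)))

lemma hasDerivAt_Gj {f : (Fin n → ℂ) → ℂ} (hf : Differentiable ℂ f) (w : Fin n → ℂ) (t : ℝ)
    (j : Fin n) (c : ℂ) (z : Fin n → ℂ) :
    HasDerivAt (fun s : ℝ => Gj f w t j (z + s • (Pi.single j c : Fin n → ℂ)))
      (c * fderiv ℂ f z (Pi.single j 1) * ((starRingEnd ℂ (z j) - w j) * cexp (-(t * Dq z w))) +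
        f z * (starRingEnd ℂ c * cexp (-(t * Dq z w)) + (starRingEnd ℂ (z j) - w j) *
          (cexp (-(t * Dq z w)) * (-(t * (c * (starRingEnd ℂ (z j) - w j) +
            (z j - w j) * starRingEnd ℂ c)))))) 0 := by
  classical
  have h1 : HasDerivAt (fun s : ℝ => f (z + s • (Pi.single j c : Fin n → ℂ)))
      (c * fderiv ℂ f z (Pi.single j 1)) 0 := by
    have h2 : HasDerivAt (fun s : ℝ => z + s • (Pi.single j c : Fin n → ℂ)) (Pi.single j c) 0 := by
      simpa using ((hasDerivAt_id (0 : ℝ)).smul_const (Pi.single j c : Fin n → ℂ)).const_add z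
    have h3 : HasFDerivAt f ((fderiv ℂ f z).restrictScalars ℝ)
        (z + (0 : ℝ) • (Pi.single j c : Fin n → ℂ)) := by
      simpa using (hf z).hasFDerivAt.restrictScalars ℝ
    have h4 := h3.comp_hasDerivAt (0 : ℝ) h2
    have e : (Pi.single j c : Fin n → ℂ) = c • Pi.single j 1 := by
      rw [← Pi.single_smul]; simp
    refine HasDerivAt.congr_deriv h4 ?_
    rw [ContinuousLinearMap.coe_restrictScalars', e, map_smul, smul_eq_mul]
  have h2 : HasDerivAt (fun s : ℝ => starRingEnd ℂ ((z + s • (Pi.single j c : Fin n → ℂ)) j) - w j)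
      (starRingEnd ℂ c) 0 := by
    have : (fun s : ℝ => starRingEnd ℂ ((z + s • (Pi.single j c : Fin n → ℂ)) j) - w j) =
        fun s : ℝ => (starRingEnd ℂ (z j) - w j) + (s : ℂ) * starRingEnd ℂ c := by
      funext s
      simp only [Pi.add_apply, Pi.smul_apply, Pi.single_eq_same, Complex.real_smul, map_add,
        map_mul, Complex.conj_ofReal]
      ring
    rw [this]
    simpa using ((Complex.ofRealCLM.hasDerivAt (x := (0 : ℝ))).mul_const
      (starRingEnd ℂ c)).const_add (starRingEnd ℂ (z j) - w j)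
  have h3 : HasDerivAt (fun s : ℝ => cexp (-(t * Dq (z + s • (Pi.single j c : Fin n → ℂ)) w)))
      (cexp (-(t * Dq z w)) * (-(t * (c * (starRingEnd ℂ (z j) - w j) +
            (z j - w j) * starRingEnd ℂ c)))) 0 := by
    have h4 : HasDerivAt (fun s : ℝ => -(t * Dq (z + s • (Pi.single j c : Fin n → ℂ)) w))
        (-(t * (c * (starRingEnd ℂ (z j) - w j) + (z j - w j) * starRingEnd ℂ c))) 0 := by
      have : (fun s : ℝ => -(t * Dq (z + s • (Pi.single j c : Fin n → ℂ)) w)) = fun s : ℝ =>
          -(t * (Dq z w +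
      (s : ℂ) * (c * (starRingEnd ℂ (z j) - w j) + (z j - w j) * starRingEnd ℂ c) +
      (s : ℂ) ^ 2 * (c * starRingEnd ℂ c))) := by
        funext s; rw [Dq_line]
      rw [this]
      have h5 : HasDerivAt (fun s : ℝ => (s : ℂ)) 1 0 := by
        have := (Complex.ofRealCLM.hasDerivAt (x := (0 : ℝ)))
        rw [Complex.ofRealCLM_apply, Complex.ofReal_one] at this
        exact this
      have h6 := ((((h5.mul_const (c * (starRingEnd ℂ (z j) - w j) +
        (z j - w j) * starRingEnd ℂ c)).const_add (Dq z w)).add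
        ((h5.pow 2).mul_const (c * starRingEnd ℂ c))).const_mul (t : ℂ)).neg
      refine h6.congr_deriv ?_
      simp
    have h7 := h4.cexp
    simpa using h7
  have h8 := h1.mul (h2.mul h3)
  refine h8.congr_deriv ?_
  simp

lemma differentiable_Gj {f : (Fin n → ℂ) → ℂ} (hf : Differentiable ℂ f) (w : Fin n → ℂ) (t : ℝ)
    (j : Fin n) : Differentiable ℝ (Gj f w t j) := by
  have h1 : Differentiable ℝ f := fun z => (hf z).restrictScalars ℝ
  have h2 : ∀ k : Fin n, Differentiable ℝ (fun z : Fin n → ℂ => starRingEnd ℂ (z k)) := fun k =>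
    (Complex.conjCLE.differentiable).comp (differentiable_apply k)
  have h3 : ∀ k : Fin n, Differentiable ℝ (fun z : Fin n → ℂ => z k) := fun k =>
    differentiable_apply k
  have h4 : Differentiable ℝ (fun z : Fin n → ℂ => Dq z w) := by
    simp only [Dq]
    exact Differentiable.fun_sum fun k _ => ((h3 k).sub_const _).mul ((h2 k).sub_const _)
  unfold Gj
  exact h1.mul (((h2 j).sub_const _).mul ((h4.const_mul _).neg.cexp))

lemma fderiv_Gj {f : (Fin n → ℂ) → ℂ} (hf : Differentiable ℂ f) (w : Fin n → ℂ) (t : ℝ)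
    (j : Fin n) (c : ℂ) (z : Fin n → ℂ) :
    fderiv ℝ (Gj f w t j) z (Pi.single j c) =
      (c * fderiv ℂ f z (Pi.single j 1) * ((starRingEnd ℂ (z j) - w j) * cexp (-(t * Dq z w))) +
        f z * (starRingEnd ℂ c * cexp (-(t * Dq z w)) + (starRingEnd ℂ (z j) - w j) *
          (cexp (-(t * Dq z w)) * (-(t * (c * (starRingEnd ℂ (z j) - w j) +
            (z j - w j) * starRingEnd ℂ c)))))) := by
  have h1 := (differentiable_Gj hf w t j z).hasFDerivAt.hasLineDerivAt (Pi.single j c)
  exact h1.unique (hasDerivAt_Gj hf w t j c z)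


lemma continuous_fderiv_Gj {f : (Fin n → ℂ) → ℂ} (hf : Differentiable ℂ f) (w : Fin n → ℂ) (t : ℝ)
    (j : Fin n) (c : ℂ) :
    Continuous (fun z => fderiv ℝ (Gj f w t j) z (Pi.single j c)) := by
  simp only [fderiv_Gj hf]
  have h0 := continuous_fderiv_apply hf (Pi.single j 1)
  have h1 := hf.continuous
  have h2 : Continuous fun z : Fin n → ℂ => starRingEnd ℂ (z j) :=
    Complex.continuous_conj.comp (continuous_apply j)
  have h3 : Continuous fun z : Fin n → ℂ => Dq z w :=
    continuous_Dq.comp (continuous_id.prodMk continuous_const)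
  have h4 : Continuous fun z : Fin n → ℂ => cexp (-(t * Dq z w)) :=
    Complex.continuous_exp.comp (continuous_const.mul h3).neg
  have h5 : Continuous fun z : Fin n → ℂ => z j := continuous_apply j
  fun_prop

/-- `2 ∂̄_j` -/
noncomputable def db (χ : (Fin n → ℂ) → ℂ) (j : Fin n) (z : Fin n → ℂ) : ℂ :=
  fderiv ℝ χ z (Pi.single j 1) + I * fderiv ℝ χ z (Pi.single j I)

lemma continuous_db {χ : (Fin n → ℂ) → ℂ} (hχ : ContDiff ℝ 1 χ) (j : Fin n) :
    Continuous (db χ j) := by
  have h := hχ.continuous_fderiv one_ne_zero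
  unfold db
  exact (h.clm_apply continuous_const).add (continuous_const.mul (h.clm_apply continuous_const))

lemma hasCompactSupport_db {χ : (Fin n → ℂ) → ℂ} (hc : HasCompactSupport χ) (j : Fin n) :
    HasCompactSupport (db χ j) := by
  have h1 : HasCompactSupport (fun z => fderiv ℝ χ z (Pi.single j 1)) := hc.fderiv_apply _ _
  have h2 : HasCompactSupport (fun z => fderiv ℝ χ z (Pi.single j I)) := hc.fderiv_apply _ _
  exact h1.add (h2.mul_left (f := fun _ => I))

lemma ibp_aux {χ : (Fin n → ℂ) → ℂ} (hχ : ContDiff ℝ 1 χ) (hc : HasCompactSupport χ)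
    {f : (Fin n → ℂ) → ℂ} (hf : Differentiable ℂ f) (w : Fin n → ℂ) (t : ℝ) (j : Fin n) (c : ℂ) :
    ∫ z, χ z * fderiv ℝ (Gj f w t j) z (Pi.single j c) =
      - ∫ z, fderiv ℝ χ z (Pi.single j c) * Gj f w t j z := by
  have hG : Continuous (Gj f w t j) := (differentiable_Gj hf w t j).continuous
  refine integral_mul_fderiv_eq_neg_fderiv_mul_of_integrable ?_ ?_ ?_ ?_ ?_
  · exact (((hχ.continuous_fderiv one_ne_zero).clm_apply continuous_const).mul
      hG).integrable_of_hasCompactSupport ((hc.fderiv_apply _ _).mul_right)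
  · exact (hχ.continuous.mul (continuous_fderiv_Gj hf w t j c)).integrable_of_hasCompactSupport
      hc.mul_right
  · exact (hχ.continuous.mul hG).integrable_of_hasCompactSupport hc.mul_right
  · exact fun z _ => (hχ.differentiable one_ne_zero) z
  · exact fun z _ => differentiable_Gj hf w t j z

lemma ibp {χ : (Fin n → ℂ) → ℂ} (hχ : ContDiff ℝ 1 χ) (hc : HasCompactSupport χ)
    {f : (Fin n → ℂ) → ℂ} (hf : Differentiable ℂ f) (w : Fin n → ℂ) (t : ℝ) :
    ∫ z, χ z * f z * (2 * ((n - t * Dq z w) * cexp (-(t * Dq z w)))) =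
      - ∑ j, ∫ z, db χ j z * f z * ((starRingEnd ℂ (z j) - w j) * cexp (-(t * Dq z w))) := by
  have hG : ∀ j, Continuous (Gj f w t j) := fun j => (differentiable_Gj hf w t j).continuous
  have i1 : ∀ j (c : ℂ), Integrable (fun z => χ z * fderiv ℝ (Gj f w t j) z (Pi.single j c)) :=
    fun j c => (hχ.continuous.mul (continuous_fderiv_Gj hf w t j c)).integrable_of_hasCompactSupport
      hc.mul_right
  have i2 : ∀ j (c : ℂ), Integrable (fun z => fderiv ℝ χ z (Pi.single j c) * Gj f w t j z) :=
    fun j c => (((hχ.continuous_fderiv one_ne_zero).clm_apply continuous_const).mul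
      (hG j)).integrable_of_hasCompactSupport ((hc.fderiv_apply _ _).mul_right)
  have e1 : ∀ z, χ z * f z * (2 * ((n - t * Dq z w) * cexp (-(t * Dq z w)))) =
      ∑ j, (χ z * fderiv ℝ (Gj f w t j) z (Pi.single j 1) +
        I * (χ z * fderiv ℝ (Gj f w t j) z (Pi.single j I))) := by
    intro z
    have : ∀ j : Fin n, (χ z * fderiv ℝ (Gj f w t j) z (Pi.single j 1) +
        I * (χ z * fderiv ℝ (Gj f w t j) z (Pi.single j I))) =
        χ z * f z * 2 * cexp (-(t * Dq z w)) *
          (1 - t * ((z j - w j) * (starRingEnd ℂ (z j) - w j))) := by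
      intro j
      rw [fderiv_Gj hf, fderiv_Gj hf]
      simp only [map_one, Complex.conj_I]
      ring_nf
      simp only [Complex.I_sq]
      ring
    simp_rw [this]
    rw [← Finset.mul_sum, Finset.sum_sub_distrib, ← Finset.mul_sum]
    simp only [Finset.sum_const, Finset.card_univ, Fintype.card_fin, nsmul_eq_mul, mul_one]
    rw [Dq]
    ring
  simp_rw [e1]
  have i3 : ∀ j, Integrable (fun z => χ z * fderiv ℝ (Gj f w t j) z (Pi.single j 1) +
        I * (χ z * fderiv ℝ (Gj f w t j) z (Pi.single j I))) :=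
    fun j => (i1 j 1).add ((i1 j I).const_mul I)
  rw [integral_finsetSum _ fun j _ => i3 j, ← Finset.sum_neg_distrib]
  refine Finset.sum_congr rfl fun j _ => ?_
  rw [integral_add (i1 j 1) ((i1 j I).const_mul I), integral_const_mul, ibp_aux hχ hc hf,
    ibp_aux hχ hc hf]
  have e2 : ∀ z, db χ j z * f z * ((starRingEnd ℂ (z j) - w j) * cexp (-(t * Dq z w))) =
      fderiv ℝ χ z (Pi.single j 1) * Gj f w t j z + I * (fderiv ℝ χ z (Pi.single j I) *
        Gj f w t j z) := by
    intro z
    simp only [db, Gj]; ring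
  simp_rw [e2]
  rw [integral_add (i2 j 1) ((i2 j I).const_mul I), integral_const_mul]
  ring

end H721CS
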