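import Pool.Agent.H721CS.FromDecay

/-!
# Local decay
-/

open Complex Set Metric Topology MeasureTheory Filter
namespace H721CS
variable {n : ℕ}

lemma local_decay {P : Type*} [PseudoMetricSpace P] [ProperSpace P] {q : P → (Fin n → ℂ) → ℂ}
    {T : ((Fin n → ℂ) → ℂ) → ℂ} {L : Set (Fin n → ℂ)} (hT : Car T L)
    (hL : IsCompact L) (hq : Continuous (fun x : P × (Fin n → ℂ) => q x.1 x.2))
    (hqd : ∀ p, Differentiable ℂ (q p)) {X : P} (h : ∀ w ∈ L, (q X w).re < 0) :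
    ∃ r : ℝ, 0 < r ∧ ∃ c : ℝ, 0 < c ∧ ∃ C : ℝ, 0 < C ∧ ∀ t : ℝ, 0 ≤ t → ∀ X' ∈ closedBall X r,
    ‖T (fun w => cexp (t * q X' w))‖ ≤ C * Real.exp (-c * t) := by
  have hopen : IsOpen {x : P × (Fin n → ℂ) | (q x.1 x.2).re < 0} :=
    isOpen_lt (Complex.continuous_re.comp hq) continuous_const
  obtain ⟨u, ω, hu, hω, hXu, hLω, huω⟩ := generalized_tube_lemma isCompact_singleton hL hopen
    (s := {X}) (by rintro ⟨p, w⟩ ⟨hp, hw⟩; simp only [mem_singleton_iff] at hp; subst hp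
                   exact h w hw)
  obtain ⟨r, hr, hru⟩ := Metric.nhds_basis_closedBall.mem_iff.1 (hu.mem_nhds (hXu rfl))
  have hneg : ∀ p ∈ closedBall X r, ∀ w ∈ L, (q p w).re < 0 := fun p hp w hw =>
    huω (show (p, w) ∈ u ×ˢ ω from ⟨hru hp, hLω hw⟩)
  obtain ⟨c, hc, hβ⟩ : ∃ c : ℝ, 0 < c ∧ ∀ p ∈ closedBall X r, ∀ w ∈ L, (q p w).re ≤ -(2 * c) := by
    rcases L.eq_empty_or_nonempty with rfl | hne
    · exact ⟨1, one_pos, by simp⟩
    · obtain ⟨⟨p₀, w₀⟩, hmem, hmax⟩ := ((isCompact_closedBall X r).prod hL).exists_isMaxOn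
        (f := fun x : P × (Fin n → ℂ) => (q x.1 x.2).re)
        ((nonempty_closedBall.2 hr.le).prod hne)
        (Complex.continuous_re.comp hq).continuousOn
      have h0 := hneg p₀ hmem.1 w₀ hmem.2
      refine ⟨-(q p₀ w₀).re / 2, by linarith, fun p hp w hw => ?_⟩
      have : (q p w).re ≤ (q p₀ w₀).re := isMaxOn_iff.1 hmax (p, w) ⟨hp, hw⟩
      linarith
  obtain ⟨C, hC, hb⟩ := hT.bound hL hq hqd (isCompact_closedBall X r) hβ hc
  refine ⟨r, hr, c, hc, C, hC, fun t ht X' hX' => (hb t ht X' hX').trans_eq ?_⟩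
  congr 2; ring

/-- off a real compact carrier the Gaussian averages decay -/
lemma LD_of_notMem {T : ((Fin n → ℂ) → ℂ) → ℂ} {K : Set (Fin n → ℂ)} (hT : Car T K)
    (hKc : IsCompact K) (hreal : ∀ w ∈ K, ∀ j, (w j).im = 0) {z : Fin n → ℂ} (hz : z ∉ K) :
    LD T z := by
  obtain ⟨r, hr, c, hc, C, hC, hb⟩ := local_decay hT hKc (q := fun z w => -Dq z w)
    continuous_Dq.neg (fun z => (differentiable_Dq_right z).neg) (X := z) (by
      intro w hw
      have h1 := Dq_re_ge z w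
      have h2 : ∑ j, (w j).im ^ 2 = 0 := by simp [hreal w hw]
      have h3 : 0 < ∑ j, ‖z j - w j‖ ^ 2 := by
        have hne : z ≠ w := fun h => hz (h ▸ hw)
        obtain ⟨j, hj⟩ := Function.ne_iff.1 hne
        exact Finset.sum_pos' (fun i _ => by positivity) ⟨j, Finset.mem_univ j,
          by have := norm_pos_iff.2 (sub_ne_zero.2 hj); positivity⟩
      simp only [Complex.neg_re]
      rw [h2] at h1
      linarith)
  refine ⟨r, hr, c, hc, C, hC, fun t ht z' hz' => ?_⟩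
  have := hb t ht z' hz'
  simpa only [mul_neg] using this

lemma Car.map_smul' {T : ((Fin n → ℂ) → ℂ) → ℂ} {K : Set (Fin n → ℂ)} (hT : Car T K)
    {f : (Fin n → ℂ) → ℂ} (hf : Differentiable ℂ f) (c : ℂ) :
    T (fun w => c * f w) = c * T f := by
  obtain ⟨M, hM, -, Λ, hΛ⟩ := hT univ isOpen_univ (subset_univ _)
  have h1 := hΛ ⟨f, hf.continuous⟩ hf
  have h3 := hΛ ⟨fun w => c * f w, (continuous_const.mul hf.continuous)⟩
    ((differentiable_const c).mul hf)
  simp only [ContinuousMap.coe_mk] at h1 h3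
  have h4 : (⟨fun w => c * f w, (continuous_const.mul hf.continuous)⟩ :
      C(Fin n → ℂ, ℂ)).restrict M = c • (⟨f, hf.continuous⟩ : C(Fin n → ℂ, ℂ)).restrict M := rfl
  rw [h3, h4, _root_.map_smul, smul_eq_mul, ← h1]

lemma Dq_eq_qf {a : Fin n → ℂ} (z w : Fin n → ℂ) :
    -Dq z w = qf a (fun j => ((z j).re : ℂ)) w -
      ∑ j, ((((z j).re : ℂ) - a j) ^ 2 + ((z j).im : ℂ) ^ 2) := by
  simp only [Dq, qf]
  rw [← Finset.sum_neg_distrib, ← Finset.sum_sub_distrib]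
  refine Finset.sum_congr rfl fun j _ => ?_
  have hA : z j * starRingEnd ℂ (z j) = ((z j).re : ℂ) ^ 2 + ((z j).im : ℂ) ^ 2 := by
    rw [Complex.mul_conj, Complex.normSq_apply]; push_cast; ring
  have hB : z j + starRingEnd ℂ (z j) = 2 * ((z j).re : ℂ) := by
    rw [Complex.add_conj]; push_cast; ring
  linear_combination -hA + w j * hB

lemma LD_near {T : ((Fin n → ℂ) → ℂ) → ℂ} {K : Set (Fin n → ℂ)} (hT : Car T K)
    {a : Fin n → ℂ} (ha : ∀ j, (a j).im = 0) {r c C : ℝ} (hc : 0 < c) (hC : 0 < C)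
    (hb : ∀ t : ℝ, 0 ≤ t → ∀ X' ∈ closedBall a r,
    ‖T (fun w => cexp (t * qf a X' w))‖ ≤ C * Real.exp (-c * t)) {z : Fin n → ℂ}
    (hz : z ∈ ball a r) : LD T z := by
  rw [mem_ball] at hz
  refine ⟨(r - dist z a) / 2, by linarith, c, hc, C, hC, fun t ht z' hz' => ?_⟩
  have hz'a : dist z' a ≤ r := by
    rw [mem_closedBall] at hz'
    linarith [dist_triangle z' z a]
  set X : Fin n → ℂ := fun j => ((z' j).re : ℂ) with hX
  have haj : ∀ j, a j = ((a j).re : ℂ) := fun j => by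
    apply Complex.ext <;> simp [ha j]
  have hXa : X ∈ closedBall a r := by
    rw [mem_closedBall, dist_eq_norm]
    refine le_trans ?_ hz'a
    rw [dist_eq_norm]
    rw [pi_norm_le_iff_of_nonneg (norm_nonneg _)]
    intro j
    refine le_trans ?_ (norm_le_pi_norm (z' - a) j)
    simp only [Pi.sub_apply, hX]
    rw [haj j, ← Complex.ofReal_sub, Complex.norm_real]
    have : (z' j).re - (a j).re = (z' j - ((a j).re : ℂ)).re := by simp
    rw [this]
    exact Complex.abs_re_le_norm _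
  have e1 : (fun w => cexp (-(t * Dq z' w))) = fun w =>
      cexp (-(t * ∑ j, ((((z' j).re : ℂ) - a j) ^ 2 + ((z' j).im : ℂ) ^ 2))) *
        cexp (t * qf a X w) := by
    funext w
    rw [← Complex.exp_add]
    congr 1
    rw [← mul_neg, Dq_eq_qf (a := a)]
    ring
  have e3 := hT.map_smul' (f := fun w => cexp (t * qf a X w)) (Complex.differentiable_exp.comp
    ((differentiable_const _).mul (differentiable_qf a X)))
    (cexp (-(t * ∑ j, ((((z' j).re : ℂ) - a j) ^ 2 + ((z' j).im : ℂ) ^ 2))))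
  rw [e1, e3, norm_mul]
  have h1 : ‖cexp (-(t * ∑ j, ((((z' j).re : ℂ) - a j) ^ 2 + ((z' j).im : ℂ) ^ 2)))‖ ≤ 1 := by
    have e2 : (-(t * ∑ j, ((((z' j).re : ℂ) - a j) ^ 2 + ((z' j).im : ℂ) ^ 2)) : ℂ) =
        ((-(t * ∑ j, (((z' j).re - (a j).re) ^ 2 + (z' j).im ^ 2)) : ℝ) : ℂ) := by
      push_cast
      congr 2
      refine Finset.sum_congr rfl fun j _ => ?_
      conv_lhs => rw [haj j]
    rw [e2, Complex.norm_exp, Complex.ofReal_re, Real.exp_le_one_iff]
    have : 0 ≤ ∑ j, (((z' j).re - (a j).re) ^ 2 + (z' j).im ^ 2) :=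
      Finset.sum_nonneg fun j _ => by positivity
    nlinarith
  calc _ ≤ 1 * (C * Real.exp (-c * t)) :=
        mul_le_mul h1 (hb t ht X hXa) (norm_nonneg _) zero_le_one
    _ = _ := one_mul _

end H721CS
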