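import Pool.Agent.H721CS.Upper

/-!
# The lower estimate
-/

open Complex Set Metric Topology MeasureTheory
namespace H721CS
variable {n : ℕ}

/-- the Gaussian weight -/
noncomputable def gw (S : ℝ) (Z : Fin n → ℂ) : ℂ := cexp (-(S * ((∑ j, ‖Z j‖ ^ 2 : ℝ) : ℂ)))

lemma continuous_gw (S : ℝ) : Continuous (gw (n := n) S) := by
  unfold gw; fun_prop

lemma rot_preserving (a : Circle) :
    MeasurePreserving (fun Z : Fin n → ℂ => (a : ℂ) • Z) volume volume := by
  have h := volume_preserving_pi (α' := fun _ : Fin n => ℂ) (β' := fun _ : Fin n => ℂ)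
    (f := fun (_ : Fin n) (z : ℂ) => (a : ℂ) * z) (fun _ => by
    have := (rotation a).measurePreserving
    exact this)
  exact h

lemma mean_value {g : (Fin n → ℂ) → ℂ} (hg : Differentiable ℂ g) (κ S : ℝ) :
    ∫ Z in closedBall (0 : Fin n → ℂ) κ, g Z * gw S Z =
      g 0 * ∫ Z in closedBall (0 : Fin n → ℂ) κ, gw S Z := by
  have hrot : ∀ θ : ℝ, ∫ Z in closedBall (0 : Fin n → ℂ) κ, g (circleMap 0 1 θ • Z) * gw S Z =
      ∫ Z in closedBall (0 : Fin n → ℂ) κ, g Z * gw S Z := by
    intro θ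
    have hemb : MeasurableEmbedding (fun Z : Fin n → ℂ => ((Circle.exp θ : Circle) : ℂ) • Z) :=
      (Homeomorph.smulOfNeZero ((Circle.exp θ : Circle) : ℂ) (Circle.coe_ne_zero _)).measurableEmbedding
    have h := (rot_preserving (n := n) (Circle.exp θ)).setIntegral_preimage_emb hemb
      (fun Z => g Z * gw S Z) (closedBall 0 κ)
    rw [← h]
    have e1 : (fun Z : Fin n → ℂ => ((Circle.exp θ : Circle) : ℂ) • Z) ⁻¹' closedBall 0 κ =
        closedBall 0 κ := by
      ext Z
      simp [norm_smul]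
    rw [e1]
    refine integral_congr_ae (Filter.Eventually.of_forall fun Z => ?_)
    simp [gw, circleMap, Circle.coe_exp]
  have hswap : ∫ θ in (0)..(2 * Real.pi), (∫ Z in closedBall (0 : Fin n → ℂ) κ,
      g (circleMap 0 1 θ • Z) * gw S Z) = ∫ Z in closedBall (0 : Fin n → ℂ) κ,
      (∫ θ in (0)..(2 * Real.pi), g (circleMap 0 1 θ • Z) * gw S Z) := by
    rw [intervalIntegral.integral_of_le Real.two_pi_pos.le]
    simp_rw [intervalIntegral.integral_of_le Real.two_pi_pos.le]
    refine integral_integral_swap ?_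
    rw [Measure.prod_restrict]
    refine IntegrableOn.mono_set (t := Icc 0 (2 * Real.pi) ×ˢ closedBall (0 : Fin n → ℂ) κ) ?_
      (prod_mono Ioc_subset_Icc_self Subset.rfl)
    refine ContinuousOn.integrableOn_compact (isCompact_Icc.prod (isCompact_closedBall _ _))
      (Continuous.continuousOn ?_)
    have c1 : Continuous fun p : ℝ × (Fin n → ℂ) => g (circleMap 0 1 p.1 • p.2) :=
      hg.continuous.comp (((continuous_circleMap 0 1).comp continuous_fst).smul continuous_snd)
    exact c1.mul ((continuous_gw S).comp continuous_snd)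
  have hmv : ∀ Z : Fin n → ℂ, ∫ θ in (0)..(2 * Real.pi), g (circleMap 0 1 θ • Z) * gw S Z =
      (2 * Real.pi) * (g 0 * gw S Z) := by
    intro Z
    have hl : Differentiable ℂ (fun ζ : ℂ => g (ζ • Z)) := hg.comp (differentiable_id.smul_const Z)
    have h := DiffContOnCl.circleAverage (f := fun ζ : ℂ => g (ζ • Z)) (c := 0) (R := 1)
      hl.diffContOnCl
    rw [Real.circleAverage_def] at h
    simp only [zero_smul] at h
    rw [intervalIntegral.integral_mul_const]
    rw [← h]
    rw [Complex.real_smul]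
    push_cast
    have : (2 * (Real.pi : ℂ)) ≠ 0 := by simp [Real.pi_ne_zero]
    field_simp
  simp_rw [hrot, hmv] at hswap
  rw [intervalIntegral.integral_const, integral_const_mul, integral_const_mul] at hswap
  have h2 : (2 * (Real.pi : ℂ)) ≠ 0 := by simp [Real.pi_ne_zero]
  refine mul_left_cancel₀ h2 ?_
  rw [← hswap, sub_zero, Complex.real_smul]
  push_cast
  ring


/-- shifting the kernel -/
lemma Dq_shift (w Z : Fin n → ℂ) :
    Dq (w + Z) w = ((∑ j, ‖Z j‖ ^ 2 : ℝ) : ℂ) - 2 * I * ∑ j, ((w j).im : ℂ) * Z j := by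
  simp only [Dq, Pi.add_apply, map_add]
  push_cast
  rw [Finset.mul_sum, ← Finset.sum_sub_distrib]
  refine Finset.sum_congr rfl fun j _ => ?_
  have h1 : (‖Z j‖ : ℂ) ^ 2 = Z j * starRingEnd ℂ (Z j) := by
    rw [Complex.mul_conj, Complex.normSq_eq_norm_sq]; push_cast; ring
  have h2 : starRingEnd ℂ (w j) = w j - 2 * I * (w j).im := by
    apply Complex.ext <;> simp
    ring
  rw [h1, h2]; ring

lemma Dq_re_ge (z w : Fin n → ℂ) :
    (∑ j, ‖z j - w j‖ ^ 2) / 2 - 2 * ∑ j, (w j).im ^ 2 ≤ (Dq z w).re := by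
  have e : z = w + (z - w) := by abel
  have h := Dq_shift w (z - w)
  rw [← e] at h
  rw [h]
  simp only [Complex.sub_re, Complex.ofReal_re, Pi.sub_apply]
  have h1 : (2 * I * ∑ j, ((w j).im : ℂ) * (z j - w j)).re =
      ∑ j, -(2 * (w j).im * (z j - w j).im) := by
    rw [Finset.mul_sum, Complex.re_sum]
    refine Finset.sum_congr rfl fun j _ => ?_
    simp [Complex.mul_re, Complex.mul_im]
    ring
  rw [h1]
  rw [Finset.sum_div, Finset.mul_sum, ← Finset.sum_sub_distrib, ← Finset.sum_sub_distrib]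
  refine Finset.sum_le_sum fun j _ => ?_
  have h2 : (z j - w j).im ^ 2 ≤ ‖z j - w j‖ ^ 2 := by
    have := Complex.abs_im_le_norm (z j - w j)
    rw [← sq_abs (z j - w j).im]
    exact pow_le_pow_left₀ (abs_nonneg _) this 2
  nlinarith [sq_nonneg ((z j - w j).im + 2 * (w j).im)]

lemma kernel_local {f : (Fin n → ℂ) → ℂ} (hf : Differentiable ℂ f) {R κ : ℝ} (hκ : 0 < κ)
    {w : Fin n → ℂ} (hw : ‖w‖ ≤ R - κ) (him : ∑ j, (w j).im ^ 2 ≤ κ ^ 2 / 8) {F : ℝ}
    (hF : ∀ z ∈ closedBall (0 : Fin n → ℂ) R, ‖f z‖ ≤ F) {S : ℝ} (hS : 0 ≤ S) :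
    ‖(∫ z in closedBall (0 : Fin n → ℂ) R, f z * cexp (-(S * Dq z w))) -
      (∫ Z in closedBall (0 : Fin n → ℂ) κ, gw S Z) * f w‖ ≤
      F * Real.exp (-(κ ^ 2 / 4) * S) * (volume (closedBall (0 : Fin n → ℂ) R)).toReal := by
  have hsub : closedBall w κ ⊆ closedBall (0 : Fin n → ℂ) R := by
    intro z hz
    rw [mem_closedBall, dist_eq_norm] at hz
    rw [mem_closedBall, dist_zero_right]
    calc ‖z‖ = ‖(z - w) + w‖ := by rw [sub_add_cancel]
      _ ≤ ‖z - w‖ + ‖w‖ := norm_add_le _ _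
      _ ≤ R := by linarith
  have hc : Continuous fun z : Fin n → ℂ => f z * cexp (-(S * Dq z w)) :=
    hf.continuous.mul (Complex.continuous_exp.comp (continuous_const.mul
      (continuous_Dq.comp (continuous_id.prodMk continuous_const))).neg)
  have hint : IntegrableOn (fun z : Fin n → ℂ => f z * cexp (-(S * Dq z w)))
      (closedBall (0 : Fin n → ℂ) R) :=
    ContinuousOn.integrableOn_compact (isCompact_closedBall _ _) hc.continuousOn
  have hsplit : ∫ z in closedBall (0 : Fin n → ℂ) R, f z * cexp (-(S * Dq z w)) =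
      (∫ z in closedBall w κ, f z * cexp (-(S * Dq z w))) +
      ∫ z in closedBall (0 : Fin n → ℂ) R \ closedBall w κ, f z * cexp (-(S * Dq z w)) := by
    rw [← setIntegral_union disjoint_sdiff_right
      (measurableSet_closedBall.diff measurableSet_closedBall) (hint.mono_set hsub)
      (hint.mono_set sdiff_subset), union_sdiff_cancel hsub]
  have hfirst : ∫ z in closedBall w κ, f z * cexp (-(S * Dq z w)) =
      (∫ Z in closedBall (0 : Fin n → ℂ) κ, gw S Z) * f w := by
    have hmp : MeasurePreserving (fun Z : Fin n → ℂ => w + Z) volume volume :=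
      measurePreserving_add_left volume w
    have hemb : MeasurableEmbedding (fun Z : Fin n → ℂ => w + Z) := measurableEmbedding_addLeft w
    have h := hmp.setIntegral_preimage_emb hemb
      (fun z => f z * cexp (-(S * Dq z w))) (closedBall w κ)
    rw [← h]
    have e1 : (fun Z : Fin n → ℂ => w + Z) ⁻¹' closedBall w κ = closedBall 0 κ := by
      ext Z
      simp [dist_eq_norm]
    rw [e1]
    have hg : Differentiable ℂ fun Z : Fin n → ℂ =>
        f (w + Z) * cexp (S * (2 * I * ∑ j, ((w j).im : ℂ) * Z j)) := by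
      have h1 : Differentiable ℂ fun Z : Fin n → ℂ => f (w + Z) :=
        hf.comp ((differentiable_const w).add differentiable_id)
      exact h1.mul (by fun_prop)
    have h2 := mean_value hg κ S
    simp only [add_zero, Pi.zero_apply, mul_zero, Finset.sum_const_zero, Complex.exp_zero,
      mul_one] at h2
    rw [mul_comm (∫ Z in closedBall (0 : Fin n → ℂ) κ, gw S Z), ← h2]
    refine integral_congr_ae (Filter.Eventually.of_forall fun Z => ?_)
    simp only
    rw [Dq_shift, gw, mul_assoc (f (w + Z)), ← Complex.exp_add]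
    congr 2
    push_cast
    ring
  rw [hsplit, hfirst, add_sub_cancel_left]
  have hF0 : 0 ≤ F := (norm_nonneg _).trans (hF w (hsub (mem_closedBall_self hκ.le)))
  have hvol : volume (closedBall (0 : Fin n → ℂ) R) < ⊤ :=
    (isCompact_closedBall _ _).measure_lt_top
  have hb : ∀ z ∈ closedBall (0 : Fin n → ℂ) R \ closedBall w κ,
      ‖f z * cexp (-(S * Dq z w))‖ ≤ F * Real.exp (-(κ ^ 2 / 4) * S) := by
    rintro z ⟨hzR, hzw⟩
    rw [norm_mul]
    refine mul_le_mul (hF z hzR) ?_ (norm_nonneg _) hF0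
    rw [Complex.norm_exp]
    apply Real.exp_le_exp.2
    simp only [Complex.neg_re, Complex.mul_re, Complex.ofReal_re, Complex.ofReal_im, zero_mul,
      sub_zero]
    have h1 := Dq_re_ge z w
    have h2 : κ ^ 2 ≤ ∑ j, ‖z j - w j‖ ^ 2 := by
      rw [mem_closedBall, dist_eq_norm, not_le] at hzw
      have : ∃ j, κ < ‖(z - w) j‖ := by
        by_contra hcon
        push Not at hcon
        exact absurd ((pi_norm_le_iff_of_nonneg hκ.le).2 hcon) (not_le.2 hzw)
      obtain ⟨j, hj⟩ := this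
      calc κ ^ 2 ≤ ‖z j - w j‖ ^ 2 := pow_le_pow_left₀ hκ.le hj.le 2
        _ ≤ _ := Finset.single_le_sum (f := fun j => ‖z j - w j‖ ^ 2)
          (fun i _ => by positivity) (Finset.mem_univ j)
    nlinarith
  calc _ ≤ F * Real.exp (-(κ ^ 2 / 4) * S) *
        (volume (closedBall (0 : Fin n → ℂ) R \ closedBall w κ)).toReal :=
        norm_setIntegral_le_of_norm_le_const ((measure_mono sdiff_subset).trans_lt hvol) hb
    _ ≤ _ := by
      refine mul_le_mul_of_nonneg_left ?_ (by positivity)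
      exact ENNReal.toReal_mono hvol.ne (measure_mono sdiff_subset)


lemma lower {T : ((Fin n → ℂ) → ℂ) → ℂ} {K : Set (Fin n → ℂ)} (hT : Car T K)
    (hreal : ∀ w ∈ K, ∀ j, (w j).im = 0) {R κ : ℝ} (hκ : 0 < κ) (hKR : ∀ w ∈ K, ‖w‖ < R - κ) :
    ∃ A : ℝ, 0 ≤ A ∧ ∀ f : (Fin n → ℂ) → ℂ, Differentiable ℂ f → ∀ F : ℝ, 0 ≤ F →
      (∀ z ∈ closedBall (0 : Fin n → ℂ) R, ‖f z‖ ≤ F) → ∀ S : ℝ, 0 ≤ S →
      ‖(∫ z in closedBall (0 : Fin n → ℂ) R, f z * T (fun w => cexp (-(S * Dq z w)))) -
        (∫ Z in closedBall (0 : Fin n → ℂ) κ, gw S Z) * T f‖ ≤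
        A * F * Real.exp (-(κ ^ 2 / 4) * S) := by
  set ω : Set (Fin n → ℂ) := {w | ‖w‖ < R - κ ∧ ∑ j, (w j).im ^ 2 < κ ^ 2 / 8} with hω
  have hωo : IsOpen ω := by
    have h1 : Continuous fun w : Fin n → ℂ => ∑ j, (w j).im ^ 2 :=
      continuous_finsetSum _ fun j _ => (Complex.continuous_im.comp (continuous_apply j)).pow 2
    exact (isOpen_lt continuous_norm continuous_const).inter (isOpen_lt h1 continuous_const)
  have hKω : K ⊆ ω := by
    intro w hw
    refine ⟨hKR w hw, ?_⟩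
    simp only [hreal w hw]
    simp
    positivity
  obtain ⟨M, hM, hMω, Λ, hΛ⟩ := hT ω hωo hKω
  have : CompactSpace M := isCompact_iff_compactSpace.1 hM
  refine ⟨‖Λ‖ * (volume (closedBall (0 : Fin n → ℂ) R)).toReal, by positivity, ?_⟩
  intro f hf F hF0 hF S hS
  have cφ0 : Continuous fun x : (Fin n → ℂ) × (Fin n → ℂ) => cexp (-(S * Dq x.1 x.2)) :=
    Complex.continuous_exp.comp (continuous_const.mul continuous_Dq).neg
  have dφ0 : ∀ z : Fin n → ℂ, Differentiable ℂ fun w => cexp (-(S * Dq z w)) := fun z =>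
    Complex.differentiable_exp.comp ((differentiable_const _).mul (differentiable_Dq_right z)).neg
  have hB : IsCompact (closedBall (0 : Fin n → ℂ) R) := isCompact_closedBall _ _
  obtain ⟨G, hG, eG⟩ := rep_integral (μ := volume) hM hΛ hB hB.measurableSet
    (g := fun z => f z) hf.continuous
    (φ := fun z w => cexp (-(S * Dq z w))) cφ0 dφ0
  have hTf := hΛ ⟨f, hf.continuous⟩ hf
  simp only [ContinuousMap.coe_mk] at hTf
  rw [eG, hTf, ← smul_eq_mul, ← map_smul, ← map_sub]
  refine (Λ.le_opNorm _).trans ?_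
  have hn : ‖G - (∫ Z in closedBall (0 : Fin n → ℂ) κ, gw S Z) •
      ((⟨f, hf.continuous⟩ : C(Fin n → ℂ, ℂ)).restrict M)‖ ≤
      F * Real.exp (-(κ ^ 2 / 4) * S) * (volume (closedBall (0 : Fin n → ℂ) R)).toReal := by
    rw [ContinuousMap.norm_le _ (by positivity)]
    rintro ⟨w, hw⟩
    simp only [ContinuousMap.sub_apply, ContinuousMap.smul_apply, hG, smul_eq_mul,
      ContinuousMap.restrict_apply, ContinuousMap.coe_mk]
    exact kernel_local hf hκ (hMω hw).1.le (hMω hw).2.le hF hS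
  calc _ ≤ ‖Λ‖ * (F * Real.exp (-(κ ^ 2 / 4) * S) *
        (volume (closedBall (0 : Fin n → ℂ) R)).toReal) :=
        mul_le_mul_of_nonneg_left hn (norm_nonneg _)
    _ = _ := by ring

lemma gw_lower {κ : ℝ} (hκ : 0 < κ) : ∃ c : ℝ, 0 < c ∧ ∀ S : ℝ, 1 ≤ S →
    c ≤ ‖(S : ℂ) ^ n * ∫ Z in closedBall (0 : Fin n → ℂ) κ, gw S Z‖ := by
  set v : ℝ := (volume (ball (0 : Fin n → ℂ) 1)).toReal with hv
  have hv0 : 0 < v := by
    rw [hv]
    exact ENNReal.toReal_pos (measure_ball_pos _ _ one_pos).ne' measure_ball_lt_top.ne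
  refine ⟨Real.exp (-(n * κ ^ 2)) * κ ^ (2 * n) * v, by positivity, ?_⟩
  intro S hS
  have hS0 : 0 < S := by linarith
  have hsq : 0 < Real.sqrt S := Real.sqrt_pos.2 hS0
  have hsq1 : 1 ≤ Real.sqrt S := by rw [Real.one_le_sqrt]; exact hS
  have e1 : ∫ Z in closedBall (0 : Fin n → ℂ) κ, gw S Z =
      ((∫ Z in closedBall (0 : Fin n → ℂ) κ, Real.exp (-(S * ∑ j, ‖Z j‖ ^ 2)) : ℝ) : ℂ) := by
    rw [← integral_complex_ofReal]
    refine integral_congr_ae (Filter.Eventually.of_forall fun Z => ?_)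
    simp only [gw]
    push_cast
    rfl
  rw [e1, norm_mul, norm_pow, Complex.norm_real, Complex.norm_real, Real.norm_of_nonneg hS0.le,
    Real.norm_of_nonneg (integral_nonneg fun Z => (Real.exp_pos _).le)]
  have hc : Continuous fun Z : Fin n → ℂ => Real.exp (-(S * ∑ j, ‖Z j‖ ^ 2)) := by fun_prop
  have hρ : 0 ≤ κ / Real.sqrt S := by positivity
  have hsub : closedBall (0 : Fin n → ℂ) (κ / Real.sqrt S) ⊆ closedBall 0 κ :=
    closedBall_subset_closedBall (div_le_self hκ.le hsq1)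
  have h1 : Real.exp (-(n * κ ^ 2)) * (volume (closedBall (0 : Fin n → ℂ) (κ / Real.sqrt S))).toReal ≤
      ∫ Z in closedBall (0 : Fin n → ℂ) κ, Real.exp (-(S * ∑ j, ‖Z j‖ ^ 2)) := by
    calc Real.exp (-(n * κ ^ 2)) * (volume (closedBall (0 : Fin n → ℂ) (κ / Real.sqrt S))).toReal
        = ∫ Z in closedBall (0 : Fin n → ℂ) (κ / Real.sqrt S), Real.exp (-(n * κ ^ 2)) := by
          rw [setIntegral_const, smul_eq_mul, mul_comm]; rfl
      _ ≤ ∫ Z in closedBall (0 : Fin n → ℂ) (κ / Real.sqrt S),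
            Real.exp (-(S * ∑ j, ‖Z j‖ ^ 2)) := by
          refine setIntegral_mono_on ?_ ?_ measurableSet_closedBall ?_
          · exact integrableOn_const (isCompact_closedBall _ _).measure_lt_top.ne
          · exact ContinuousOn.integrableOn_compact (isCompact_closedBall _ _) hc.continuousOn
          · intro Z hZ
            apply Real.exp_le_exp.2
            rw [mem_closedBall, dist_zero_right] at hZ
            have h2 : ∑ j, ‖Z j‖ ^ 2 ≤ n * (κ ^ 2 / S) := by
              calc ∑ j, ‖Z j‖ ^ 2 ≤ ∑ _j : Fin n, κ ^ 2 / S := by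
                    refine Finset.sum_le_sum fun j _ => ?_
                    have h3 : ‖Z j‖ ≤ κ / Real.sqrt S := (norm_le_pi_norm Z j).trans hZ
                    calc ‖Z j‖ ^ 2 ≤ (κ / Real.sqrt S) ^ 2 := pow_le_pow_left₀ (norm_nonneg _) h3 2
                      _ = κ ^ 2 / S := by rw [div_pow, Real.sq_sqrt hS0.le]
                _ = n * (κ ^ 2 / S) := by simp
            have h4 : S * ∑ j, ‖Z j‖ ^ 2 ≤ S * (n * (κ ^ 2 / S)) :=
              mul_le_mul_of_nonneg_left h2 hS0.le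
            have h5 : S * (n * (κ ^ 2 / S)) = n * κ ^ 2 := by field_simp
            linarith
      _ ≤ _ := by
          refine setIntegral_mono_set
            (ContinuousOn.integrableOn_compact (isCompact_closedBall _ _) hc.continuousOn)
            (Filter.Eventually.of_forall fun Z => (Real.exp_pos _).le) hsub.eventuallyLE
  have h6 : (volume (closedBall (0 : Fin n → ℂ) (κ / Real.sqrt S))).toReal =
      κ ^ (2 * n) / S ^ n * v := by
    rw [Measure.addHaar_closedBall _ _ hρ, ENNReal.toReal_mul, ENNReal.toReal_ofReal (by positivity)]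
    congr 1
    have hfr : Module.finrank ℝ (Fin n → ℂ) = 2 * n := by
      rw [Module.finrank_pi_fintype]
      simp [Complex.finrank_real_complex, mul_comm]
    rw [hfr, div_pow, pow_mul (Real.sqrt S), Real.sq_sqrt hS0.le]
  rw [h6] at h1
  calc Real.exp (-(n * κ ^ 2)) * κ ^ (2 * n) * v =
        S ^ n * (Real.exp (-(n * κ ^ 2)) * (κ ^ (2 * n) / S ^ n * v)) := by field_simp
    _ ≤ _ := mul_le_mul_of_nonneg_left h1 (by positivity)

end H721CS
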