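import Pool.Agent.H721CS.Ibp

/-!
# The reproducing identity
-/

open Complex Set Metric Topology MeasureTheory
namespace H721CS
variable {n : ℕ}

section general
variable {P : Type*} [TopologicalSpace P]

/-- the `C(M)`-valued continuous map attached to a family of functions -/
noncomputable def cur (M : Set (Fin n → ℂ)) {φ : P → (Fin n → ℂ) → ℂ}
    (hφ : Continuous (fun x : P × (Fin n → ℂ) => φ x.1 x.2)) : C(P, C(M, ℂ)) :=
  ContinuousMap.curry ⟨fun x : P × M => φ x.1 x.2,
    hφ.comp (continuous_fst.prodMk (continuous_subtype_val.comp continuous_snd))⟩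

@[simp] lemma cur_apply (M : Set (Fin n → ℂ)) {φ : P → (Fin n → ℂ) → ℂ}
    (hφ : Continuous (fun x : P × (Fin n → ℂ) => φ x.1 x.2)) (p : P) (w : M) :
    cur M hφ p w = φ p w := rfl

lemma rep_cur {T : ((Fin n → ℂ) → ℂ) → ℂ} {M : Set (Fin n → ℂ)} {Λ : C(M, ℂ) →L[ℂ] ℂ}
    (hΛ : ∀ f : C(Fin n → ℂ, ℂ), Differentiable ℂ f → T f = Λ (f.restrict M))
    {φ : P → (Fin n → ℂ) → ℂ}
    (hφ : Continuous (fun x : P × (Fin n → ℂ) => φ x.1 x.2))
    (hd : ∀ p, Differentiable ℂ (φ p)) (p : P) : T (φ p) = Λ (cur M hφ p) := by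
  have := hΛ ⟨φ p, (hd p).continuous⟩ (hd p)
  simp only [ContinuousMap.coe_mk] at this
  rw [this]
  congr 1

lemma Car.continuous {T : ((Fin n → ℂ) → ℂ) → ℂ} {K : Set (Fin n → ℂ)} (hT : Car T K)
    {φ : P → (Fin n → ℂ) → ℂ}
    (hφ : Continuous (fun x : P × (Fin n → ℂ) => φ x.1 x.2))
    (hd : ∀ p, Differentiable ℂ (φ p)) : Continuous (fun p => T (φ p)) := by
  obtain ⟨M, hM, -, Λ, hΛ⟩ := hT univ isOpen_univ (subset_univ _)
  have : CompactSpace M := isCompact_iff_compactSpace.1 hM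
  simp_rw [rep_cur hΛ hφ hd]
  exact Λ.continuous.comp (cur M hφ).continuous

lemma rep_integral [MeasurableSpace P] [OpensMeasurableSpace P] [SecondCountableTopology P]
    {μ : Measure P} [IsFiniteMeasureOnCompacts μ]
    {T : ((Fin n → ℂ) → ℂ) → ℂ} {M : Set (Fin n → ℂ)} (hM : IsCompact M) {Λ : C(M, ℂ) →L[ℂ] ℂ}
    (hΛ : ∀ f : C(Fin n → ℂ, ℂ), Differentiable ℂ f → T f = Λ (f.restrict M))
    {S : Set P} (hS : IsCompact S) (hSm : MeasurableSet S) {g : P → ℂ} (hg : Continuous g)
    {φ : P → (Fin n → ℂ) → ℂ}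
    (hφ : Continuous (fun x : P × (Fin n → ℂ) => φ x.1 x.2))
    (hd : ∀ p, Differentiable ℂ (φ p)) :
    ∃ G : C(M, ℂ), (∀ w : M, G w = ∫ p in S, g p * φ p w ∂μ) ∧
      ∫ p in S, g p * T (φ p) ∂μ = Λ G := by
  have : CompactSpace M := isCompact_iff_compactSpace.1 hM
  have hc : Continuous (fun p => g p • cur M hφ p) := hg.smul (cur M hφ).continuous
  have hi : IntegrableOn (fun p => g p • cur M hφ p) S μ := hc.continuousOn.integrableOn_compact' hS hSm
  refine ⟨∫ p in S, g p • cur M hφ p ∂μ, fun w => ?_, ?_⟩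
  · have := (ContinuousMap.evalCLM ℂ w : C(M, ℂ) →L[ℂ] ℂ).integral_comp_comm hi
    simp only [ContinuousMap.evalCLM_apply, ContinuousMap.smul_apply, cur_apply, smul_eq_mul] at this
    exact this.symm
  · rw [← Λ.integral_comp_comm hi]
    simp only [map_smul, smul_eq_mul, rep_cur hΛ hφ hd]

end general

lemma ftc_aux (hn : n ≠ 0) (D : ℂ) {S : ℝ} (hS : 0 ≤ S) :
    ∫ t in Icc 0 S, (t : ℂ) ^ (n - 1) * ((n - t * D) * cexp (-(t * D))) =
      (S : ℂ) ^ n * cexp (-(S * D)) := by
  rw [integral_Icc_eq_integral_Ioc, ← intervalIntegral.integral_of_le hS]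
  have hd : ∀ t ∈ uIcc 0 S, HasDerivAt (fun t : ℝ => (t : ℂ) ^ n * cexp (-(t * D)))
      ((t : ℂ) ^ (n - 1) * ((n - t * D) * cexp (-(t * D)))) t := by
    intro t _
    have h5 : HasDerivAt (fun s : ℝ => (s : ℂ)) 1 t := by
      have := (Complex.ofRealCLM.hasDerivAt (x := t))
      rw [Complex.ofRealCLM_apply, Complex.ofReal_one] at this
      exact this
    have h6 := (h5.pow n).mul ((h5.mul_const D).neg.cexp)
    refine h6.congr_deriv ?_
    obtain ⟨m, rfl⟩ := Nat.exists_eq_succ_of_ne_zero hn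
    simp only [Nat.succ_eq_add_one, Nat.add_sub_cancel, Nat.cast_add, Nat.cast_one,
      Pi.neg_apply, Pi.pow_apply]
    ring
  have hc : Continuous (fun t : ℝ => (t : ℂ) ^ (n - 1) * ((n - t * D) * cexp (-(t * D)))) := by
    fun_prop
  rw [intervalIntegral.integral_eq_sub_of_hasDerivAt hd (hc.intervalIntegrable _ _)]
  simp [hn]

lemma scalar_identity (hn : n ≠ 0) {χ : (Fin n → ℂ) → ℂ} (hχ : ContDiff ℝ 1 χ)
    (hc : HasCompactSupport χ) {B : Set (Fin n → ℂ)} (hB : IsCompact B) (hχB : tsupport χ ⊆ B)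
    {f : (Fin n → ℂ) → ℂ} (hf : Differentiable ℂ f) (w : Fin n → ℂ) {S : ℝ} (hS : 0 ≤ S) :
    (S : ℂ) ^ n * ∫ z in B, (χ z * f z) * cexp (-(S * Dq z w)) =
      -(1 / 2) * ∑ j, ∫ p in (Icc 0 S) ×ˢ B, ((p.1 : ℂ) ^ (n - 1) * (db χ j p.2 * f p.2)) *
        ((starRingEnd ℂ (p.2 j) - w j) * cexp (-(p.1 * Dq p.2 w))) ∂(volume.prod volume) := by
  have cD : Continuous fun z : Fin n → ℂ => Dq z w :=
    continuous_Dq.comp (continuous_id.prodMk continuous_const)
  have cD2 : Continuous fun p : ℝ × (Fin n → ℂ) => Dq p.2 w := cD.comp continuous_snd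
  have cD2' : Continuous fun p : (Fin n → ℂ) × ℝ => Dq p.1 w := cD.comp continuous_fst
  have cf := hf.continuous
  have cχ := hχ.continuous
  have cR : Continuous fun p : ℝ × (Fin n → ℂ) => (p.1 : ℂ) :=
    Complex.continuous_ofReal.comp continuous_fst
  have cR' : Continuous fun p : (Fin n → ℂ) × ℝ => (p.2 : ℂ) :=
    Complex.continuous_ofReal.comp continuous_snd
  have hIc : IsCompact (Icc (0 : ℝ) S) := isCompact_Icc
  -- step 1
  have e1 : (S : ℂ) ^ n * ∫ z in B, (χ z * f z) * cexp (-(S * Dq z w)) =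
      ∫ z in B, ∫ t in Icc 0 S, (χ z * f z) *
        ((t : ℂ) ^ (n - 1) * ((n - t * Dq z w) * cexp (-(t * Dq z w)))) := by
    rw [← integral_const_mul]
    refine integral_congr_ae (Filter.Eventually.of_forall fun z => ?_)
    simp only
    rw [integral_const_mul, ftc_aux hn _ hS]
    ring
  rw [e1]
  -- step 2
  rw [integral_integral_swap (by
    rw [Measure.prod_restrict]
    refine ContinuousOn.integrableOn_compact (hB.prod hIc) (Continuous.continuousOn ?_)
    simp only [Function.uncurry_def]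
    have c1 : Continuous fun p : (Fin n → ℂ) × ℝ => χ p.1 * f p.1 :=
      (cχ.comp continuous_fst).mul (cf.comp continuous_fst)
    fun_prop)]
  have e2 : ∀ t : ℝ, ∫ z in B, (χ z * f z) *
        ((t : ℂ) ^ (n - 1) * ((n - t * Dq z w) * cexp (-(t * Dq z w)))) =
      -(1 / 2) * ∑ j, ∫ z in B, ((t : ℂ) ^ (n - 1) * (db χ j z * f z)) *
        ((starRingEnd ℂ (z j) - w j) * cexp (-(t * Dq z w))) := by
    intro t
    have h1 : ∫ z in B, (χ z * f z) *
        ((t : ℂ) ^ (n - 1) * ((n - t * Dq z w) * cexp (-(t * Dq z w)))) =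
        ((t : ℂ) ^ (n - 1) / 2) *
          ∫ z, χ z * f z * (2 * ((n - t * Dq z w) * cexp (-(t * Dq z w)))) := by
      rw [setIntegral_eq_integral_of_forall_compl_eq_zero (fun z hz => by
        have : χ z = 0 := image_eq_zero_of_notMem_tsupport fun h => hz (hχB h)
        simp [this]), ← integral_const_mul]
      refine integral_congr_ae (Filter.Eventually.of_forall fun z => ?_)
      simp only
      ring
    rw [h1, ibp hχ hc hf]
    have h2 : ∀ j, ∫ z in B, ((t : ℂ) ^ (n - 1) * (db χ j z * f z)) *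
        ((starRingEnd ℂ (z j) - w j) * cexp (-(t * Dq z w))) =
        (t : ℂ) ^ (n - 1) * ∫ z, db χ j z * f z *
          ((starRingEnd ℂ (z j) - w j) * cexp (-(t * Dq z w))) := by
      intro j
      rw [setIntegral_eq_integral_of_forall_compl_eq_zero (fun z hz => by
        have h3 : z ∉ tsupport χ := fun h => hz (hχB h)
        have h4 : fderiv ℝ χ z = 0 := by
          have := (support_fderiv_subset ℝ (f := χ))
          by_contra h5
          exact h3 (this h5)
        simp [db, h4]), ← integral_const_mul]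
      refine integral_congr_ae (Filter.Eventually.of_forall fun z => ?_)
      simp only
      ring
    simp_rw [h2]
    rw [← Finset.mul_sum]
    ring
  simp_rw [e2]
  rw [integral_const_mul]
  congr 1
  have cP : ∀ j : Fin n, Continuous fun p : ℝ × (Fin n → ℂ) =>
      ((p.1 : ℂ) ^ (n - 1) * (db χ j p.2 * f p.2)) *
        ((starRingEnd ℂ (p.2 j) - w j) * cexp (-(p.1 * Dq p.2 w))) := by
    intro j
    have c1 : Continuous fun p : ℝ × (Fin n → ℂ) => db χ j p.2 * f p.2 :=
      ((continuous_db hχ j).comp continuous_snd).mul (cf.comp continuous_snd)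
    have c2 : Continuous fun p : ℝ × (Fin n → ℂ) => starRingEnd ℂ (p.2 j) :=
      Complex.continuous_conj.comp ((continuous_apply j).comp continuous_snd)
    fun_prop
  have hI : ∀ j : Fin n, IntegrableOn (fun p : ℝ × (Fin n → ℂ) =>
      ((p.1 : ℂ) ^ (n - 1) * (db χ j p.2 * f p.2)) *
        ((starRingEnd ℂ (p.2 j) - w j) * cexp (-(p.1 * Dq p.2 w)))) (Icc 0 S ×ˢ B)
        (volume.prod volume) := fun j =>
    (cP j).continuousOn.integrableOn_compact (hIc.prod hB)
  rw [integral_finsetSum]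
  · refine Finset.sum_congr rfl fun j _ => ?_
    rw [setIntegral_prod _ (hI j)]
  · intro j _
    have := hI j
    rw [IntegrableOn, ← Measure.prod_restrict] at this
    exact this.integral_prod_left

end H721CS
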