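import Pool.Agent.H721CS.Repr

/-!
# The upper estimate
-/

open Complex Set Metric Topology MeasureTheory
namespace H721CS
variable {n : ℕ}

lemma exp_int (n : ℕ) {c : ℝ} (hc : 0 < c) :
    IntegrableOn (fun t : ℝ => t ^ (n - 1) * Real.exp (-c * t)) (Ioi 0) := by
  have h := integrableOn_rpow_mul_exp_neg_mul_rpow (s := ((n - 1 : ℕ) : ℝ)) (p := 1) (b := c)
    (by have : (0 : ℝ) ≤ ((n - 1 : ℕ) : ℝ) := Nat.cast_nonneg _
        linarith) one_pos hc
  refine h.congr_fun (fun t ht => ?_) measurableSet_Ioi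
  simp only [Real.rpow_one, Real.rpow_natCast]

lemma exp_int_le (n : ℕ) {c S : ℝ} (hc : 0 < c) :
    ∫ t in Icc 0 S, t ^ (n - 1) * Real.exp (-c * t) ≤
      ∫ t in Ioi 0, t ^ (n - 1) * Real.exp (-c * t) := by
  rw [integral_Icc_eq_integral_Ioc]
  refine setIntegral_mono_set (exp_int n hc) ?_ (Filter.Eventually.of_forall fun t ht => ht.1)
  filter_upwards [ae_restrict_mem measurableSet_Ioi] with t ht
  exact mul_nonneg (pow_nonneg (le_of_lt ht) _) (Real.exp_pos _).le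

lemma upper {T : ((Fin n → ℂ) → ℂ) → ℂ} {K : Set (Fin n → ℂ)} (hT : Car T K) (hn : n ≠ 0)
    {χ : (Fin n → ℂ) → ℂ} (hχ : ContDiff ℝ 1 χ)
    (hc : HasCompactSupport χ) {B : Set (Fin n → ℂ)} (hB : IsCompact B) (hχB : tsupport χ ⊆ B)
    {C c : ℝ} (hC : 0 ≤ C) (hc0 : 0 < c)
    (hdec : ∀ j, ∀ t : ℝ, 0 ≤ t → ∀ z ∈ B, db χ j z ≠ 0 →
      ‖T (fun w => (starRingEnd ℂ (z j) - w j) * cexp (-(t * Dq z w)))‖ ≤ C * Real.exp (-c * t)) :
    ∃ C' : ℝ, 0 ≤ C' ∧ ∀ f : (Fin n → ℂ) → ℂ, Differentiable ℂ f → ∀ F : ℝ, 0 ≤ F →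
      (∀ z ∈ tsupport χ, ‖f z‖ ≤ F) → ∀ S : ℝ, 0 ≤ S →
      ‖(S : ℂ) ^ n * ∫ z in B, (χ z * f z) * T (fun w => cexp (-(S * Dq z w)))‖ ≤ C' * F := by
  refine ⟨1 / 2 * ∑ j, (∫ t in Ioi 0, t ^ (n - 1) * Real.exp (-c * t)) * C *
    (∫ z in B, ‖db χ j z‖), ?_, ?_⟩
  · refine mul_nonneg (by norm_num) (Finset.sum_nonneg fun j _ => ?_)
    refine mul_nonneg (mul_nonneg ?_ hC) (integral_nonneg fun z => norm_nonneg _)
    refine setIntegral_nonneg measurableSet_Ioi fun t ht => ?_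
    exact mul_nonneg (pow_nonneg (le_of_lt ht) _) (Real.exp_pos _).le
  intro f hf F hF hfF S hS
  obtain ⟨M, hM, -, Λ, hΛ⟩ := hT univ isOpen_univ (subset_univ _)
  have : CompactSpace M := isCompact_iff_compactSpace.1 hM
  have cf := hf.continuous
  have cφ0 : Continuous fun x : (Fin n → ℂ) × (Fin n → ℂ) => cexp (-(S * Dq x.1 x.2)) :=
    Complex.continuous_exp.comp (continuous_const.mul continuous_Dq).neg
  have dφ0 : ∀ z : Fin n → ℂ, Differentiable ℂ fun w => cexp (-(S * Dq z w)) := fun z =>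
    Complex.differentiable_exp.comp ((differentiable_const _).mul (differentiable_Dq_right z)).neg
  obtain ⟨G, hG, eG⟩ := rep_integral (μ := volume) hM hΛ hB hB.measurableSet
    (g := fun z => χ z * f z) (hχ.continuous.mul cf)
    (φ := fun z w => cexp (-(S * Dq z w))) cφ0 dφ0
  have cφ : ∀ j : Fin n, Continuous fun x : (ℝ × (Fin n → ℂ)) × (Fin n → ℂ) =>
      (starRingEnd ℂ (x.1.2 j) - x.2 j) * cexp (-(x.1.1 * Dq x.1.2 x.2)) := by
    intro j
    have c1 : Continuous fun x : (ℝ × (Fin n → ℂ)) × (Fin n → ℂ) => Dq x.1.2 x.2 :=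
      continuous_Dq.comp ((continuous_snd.comp continuous_fst).prodMk continuous_snd)
    have c2 : Continuous fun x : (ℝ × (Fin n → ℂ)) × (Fin n → ℂ) => starRingEnd ℂ (x.1.2 j) :=
      Complex.continuous_conj.comp ((continuous_apply j).comp (continuous_snd.comp continuous_fst))
    have c3 : Continuous fun x : (ℝ × (Fin n → ℂ)) × (Fin n → ℂ) => (x.1.1 : ℂ) :=
      Complex.continuous_ofReal.comp (continuous_fst.comp continuous_fst)
    fun_prop
  have dφ : ∀ j : Fin n, ∀ p : ℝ × (Fin n → ℂ), Differentiable ℂ fun w : Fin n → ℂ =>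
      (starRingEnd ℂ (p.2 j) - w j) * cexp (-(p.1 * Dq p.2 w)) := by
    intro j p
    have := differentiable_Dq_right p.2
    fun_prop
  have cg : ∀ j : Fin n, Continuous fun p : ℝ × (Fin n → ℂ) =>
      (p.1 : ℂ) ^ (n - 1) * (db χ j p.2 * f p.2) := by
    intro j
    have c1 : Continuous fun p : ℝ × (Fin n → ℂ) => db χ j p.2 * f p.2 :=
      ((continuous_db hχ j).comp continuous_snd).mul (cf.comp continuous_snd)
    have c3 : Continuous fun p : ℝ × (Fin n → ℂ) => (p.1 : ℂ) :=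
      Complex.continuous_ofReal.comp continuous_fst
    fun_prop
  have hIB : IsCompact (Icc (0 : ℝ) S ×ˢ B) := isCompact_Icc.prod hB
  choose Gj' hGj' eGj' using fun j : Fin n => rep_integral (μ := (volume : Measure ℝ).prod
    (volume : Measure (Fin n → ℂ))) hM hΛ hIB hIB.measurableSet
    (g := fun p : ℝ × (Fin n → ℂ) => (p.1 : ℂ) ^ (n - 1) * (db χ j p.2 * f p.2)) (cg j)
    (φ := fun (p : ℝ × (Fin n → ℂ)) w =>
      (starRingEnd ℂ (p.2 j) - w j) * cexp (-(p.1 * Dq p.2 w))) (cφ j) (dφ j)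
  have hvec : (S : ℂ) ^ n • G = (-(1 / 2) : ℂ) • ∑ j, Gj' j := by
    ext w
    simp only [ContinuousMap.smul_apply, ContinuousMap.sum_apply, smul_eq_mul, hG, hGj']
    exact scalar_identity hn hχ hc hB hχB hf w hS
  have hval : (S : ℂ) ^ n * ∫ z in B, (χ z * f z) * T (fun w => cexp (-(S * Dq z w))) =
      -(1 / 2) * ∑ j, ∫ p in Icc 0 S ×ˢ B, ((p.1 : ℂ) ^ (n - 1) * (db χ j p.2 * f p.2)) *
        T (fun w => (starRingEnd ℂ (p.2 j) - w j) * cexp (-(p.1 * Dq p.2 w)))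
        ∂(volume.prod volume) := by
    rw [eG]
    simp_rw [eGj']
    rw [← map_sum, ← smul_eq_mul, ← smul_eq_mul, ← map_smul, ← map_smul, hvec]
  rw [hval, norm_mul]
  have : ‖(-(1 / 2) : ℂ)‖ = 1 / 2 := by norm_num
  rw [this, mul_assoc, Finset.sum_mul]
  refine mul_le_mul_of_nonneg_left ((norm_sum_le _ _).trans (Finset.sum_le_sum fun j _ => ?_))
    (by norm_num)
  have hint : IntegrableOn (fun p : ℝ × (Fin n → ℂ) => (p.1 ^ (n - 1) * Real.exp (-c * p.1)) *
      (C * (‖db χ j p.2‖ * F))) (Icc 0 S ×ˢ B) (volume.prod volume) := by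
    refine ContinuousOn.integrableOn_compact hIB (Continuous.continuousOn ?_)
    have c1 : Continuous fun p : ℝ × (Fin n → ℂ) => ‖db χ j p.2‖ :=
      ((continuous_db hχ j).comp continuous_snd).norm
    fun_prop
  have hle : ‖∫ p in Icc 0 S ×ˢ B, ((p.1 : ℂ) ^ (n - 1) * (db χ j p.2 * f p.2)) *
        T (fun w => (starRingEnd ℂ (p.2 j) - w j) * cexp (-(p.1 * Dq p.2 w)))
        ∂(volume.prod volume)‖ ≤ ∫ p in Icc 0 S ×ˢ B, (p.1 ^ (n - 1) * Real.exp (-c * p.1)) *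
      (C * (‖db χ j p.2‖ * F)) ∂(volume.prod volume) := by
    refine norm_integral_le_of_norm_le hint ?_
    filter_upwards [ae_restrict_mem hIB.measurableSet] with p hp
    rw [norm_mul, norm_mul, norm_mul, norm_pow]
    have h0 : 0 ≤ p.1 := hp.1.1
    have h1 : ‖(p.1 : ℂ)‖ = p.1 := by rw [Complex.norm_real, Real.norm_of_nonneg h0]
    rw [h1]
    by_cases hz : db χ j p.2 = 0
    · simp [hz]
    · have h2 := hdec j p.1 h0 p.2 hp.2 hz
      have h3 : ‖f p.2‖ ≤ F := by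
        apply hfF
        by_contra h
        apply hz
        have h4 : fderiv ℝ χ p.2 = 0 := by
          by_contra h5
          exact h (support_fderiv_subset ℝ (f := χ) h5)
        simp [db, h4]
      calc p.1 ^ (n - 1) * (‖db χ j p.2‖ * ‖f p.2‖) * _ ≤
            p.1 ^ (n - 1) * (‖db χ j p.2‖ * F) * (C * Real.exp (-c * p.1)) := by gcongr
        _ = _ := by ring
  refine hle.trans ?_
  rw [setIntegral_prod_mul (fun t : ℝ => t ^ (n - 1) * Real.exp (-c * t))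
    (fun z : Fin n → ℂ => C * (‖db χ j z‖ * F))]
  rw [integral_const_mul, integral_mul_const]
  have h5 := exp_int_le n (S := S) hc0
  have h6 : 0 ≤ ∫ z in B, ‖db χ j z‖ := integral_nonneg fun z => norm_nonneg _
  calc _ ≤ (∫ t in Ioi 0, t ^ (n - 1) * Real.exp (-c * t)) * (C * ((∫ z in B, ‖db χ j z‖) * F)) :=
        mul_le_mul_of_nonneg_right h5 (by positivity)
    _ = _ := by ring

end H721CS
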