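import Pool.Agent.H721CS.LocalDecay

/-!
# Decay at the vertices of a real polytope
-/

open Complex Set Metric Topology MeasureTheory Filter
namespace H721CS
variable {n : ℕ}

lemma hull_le {V : Set (Fin n → ℂ)} (f : (Fin n → ℂ) →ₗ[ℝ] ℝ) {b : ℝ} (h : ∀ v ∈ V, f v ≤ b) :
    ∀ w ∈ convexHull ℝ V, f w ≤ b := by
  have : convexHull ℝ V ⊆ {w | f w ≤ b} := convexHull_min h (convex_halfSpace_le f.isLinear b)
  exact this

lemma hull_lt {V : Set (Fin n → ℂ)} (f : (Fin n → ℂ) →ₗ[ℝ] ℝ) {a : Fin n → ℂ}
    (h : ∀ v ∈ V, v ≠ a → f v < f a) : ∀ w ∈ convexHull ℝ V, w ≠ a → f w < f a := by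
  have hc : Convex ℝ {w | w = a ∨ f w < f a} := by
    intro x hx y hy s t hs ht hst
    rcases hx with rfl | hx
    · rcases hy with rfl | hy
      · left
        rw [← add_smul, hst, one_smul]
      · rcases ht.eq_or_lt with rfl | ht'
        · left
          rw [add_zero] at hst
          rw [hst]; simp
        · right
          rw [map_add, map_smul, map_smul, smul_eq_mul, smul_eq_mul]
          have : s = 1 - t := by linarith
          rw [this]; nlinarith
    · rcases hs.eq_or_lt with rfl | hs'
      · rw [zero_add] at hst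
        rw [hst]
        simpa using hy
      · right
        have hy' : f y ≤ f a := by
          rcases hy with rfl | hy
          · exact le_rfl
          · exact hy.le
        rw [map_add, map_smul, map_smul, smul_eq_mul, smul_eq_mul]
        have : t = 1 - s := by linarith
        rw [this]
        rw [this] at ht
        nlinarith
  have hsub : convexHull ℝ V ⊆ {w | w = a ∨ f w < f a} := by
    refine convexHull_min (fun v hv => ?_) hc
    by_cases hva : v = a
    · exact Or.inl hva
    · exact Or.inr (h v hv hva)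
  intro w hw hwa
  rcases hsub hw with h1 | h1
  · exact absurd h1 hwa
  · exact h1

/-- real part of the complex pairing, as a real linear form -/
noncomputable def reL (η : Fin n → ℂ) : (Fin n → ℂ) →ₗ[ℝ] ℝ where
  toFun w := (∑ j, η j * w j).re
  map_add' x y := by
    simp only [Pi.add_apply, mul_add, Finset.sum_add_distrib, Complex.add_re]
  map_smul' c x := by
    simp only [Pi.smul_apply, Complex.real_smul, RingHom.id_apply, smul_eq_mul]
    rw [← Complex.re_ofReal_mul, Finset.mul_sum]
    congr 1
    refine Finset.sum_congr rfl fun j _ => ?_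
    ring

lemma reL_apply (η w : Fin n → ℂ) : reL η w = (∑ j, η j * w j).re := rfl

lemma continuous_reL (η : Fin n → ℂ) : Continuous (reL η) := by
  simp only [reL, LinearMap.coe_mk, AddHom.coe_mk]
  fun_prop

lemma exists_reL (f : (Fin n → ℂ) →ₗ[ℝ] ℝ) : ∃ η : Fin n → ℂ, ∀ w, f w = reL η w := by
  classical
  refine ⟨fun j => ((f (Pi.single j 1) : ℝ) : ℂ) - I * ((f (Pi.single j I) : ℝ) : ℂ), fun w => ?_⟩
  have h1 : w = ∑ j, ((w j).re • (Pi.single j (1 : ℂ) : Fin n → ℂ) +
      (w j).im • (Pi.single j I : Fin n → ℂ)) := by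
    conv_lhs => rw [← Finset.univ_sum_single w]
    refine Finset.sum_congr rfl fun j _ => ?_
    rw [← Pi.single_smul, ← Pi.single_smul, ← Pi.single_add]
    congr 1
    simp only [Complex.real_smul, mul_one]
    exact (Complex.re_add_im (w j)).symm
  rw [reL_apply, Complex.re_sum]
  conv_lhs => rw [h1]
  rw [map_sum]
  refine Finset.sum_congr rfl fun j _ => ?_
  rw [map_add, map_smul, map_smul]
  simp only [smul_eq_mul, Complex.mul_re, Complex.sub_re, Complex.ofReal_re, Complex.I_re,
    Complex.I_im, Complex.ofReal_im, Complex.sub_im, Complex.mul_im]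
  ring

/-- real part of the phase when the point and the vertex are real -/
lemma qf_re {a w : Fin n → ℂ} (ha : ∀ j, (a j).im = 0) (hw : ∀ j, (w j).im = 0)
    (X : Fin n → ℂ) : (qf a X w).re =
      ∑ j, (2 * ((X j).re - (a j).re) * ((w j).re - (a j).re) - ((w j).re - (a j).re) ^ 2) := by
  simp only [qf, Complex.re_sum]
  refine Finset.sum_congr rfl fun j _ => ?_
  simp only [Complex.sub_re, pow_two, Complex.mul_re, Complex.sub_im, ha j, hw j]
  ring

lemma reL_real {η w : Fin n → ℂ} (hη : ∀ j, (η j).im = 0) :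
    reL η w = ∑ j, (η j).re * (w j).re := by
  rw [reL_apply, Complex.re_sum]
  refine Finset.sum_congr rfl fun j _ => ?_
  simp [Complex.mul_re, hη j]

lemma reL_real' {η w : Fin n → ℂ} (hw : ∀ j, (w j).im = 0) :
    reL η w = ∑ j, (η j).re * (w j).re := by
  rw [reL_apply, Complex.re_sum]
  refine Finset.sum_congr rfl fun j _ => ?_
  simp [Complex.mul_re, hw j]

lemma hull_real {V : Set (Fin n → ℂ)} (hV : ∀ v ∈ V, ∀ j, (v j).im = 0) :
    ∀ w ∈ convexHull ℝ V, ∀ j, (w j).im = 0 := by
  have hc : Convex ℝ {w : Fin n → ℂ | ∀ j, (w j).im = 0} := by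
    intro x hx y hy s t _ _ _ j
    simp [hx j, hy j]
  intro w hw
  exact (convexHull_min (show V ⊆ {w : Fin n → ℂ | ∀ j, (w j).im = 0} from hV) hc) hw

/-- decay at a vertex of a real polytope -/
theorem dec_at_vertex {T : ((Fin n → ℂ) → ℂ) → ℂ} {V : Set (Fin n → ℂ)} (hVf : V.Finite)
    (hV : ∀ v ∈ V, ∀ j, (v j).im = 0) (hT : Car T (convexHull ℝ V)) {L : Set (Fin n → ℂ)}
    (hTL : Car T L) (hLc : IsCompact L) {a : Fin n → ℂ} (ha : a ∈ V) {η : Fin n → ℂ}
    (hηL : ∀ w ∈ L, reL η w < reL η a) (hηV : ∀ v ∈ V, v ≠ a → reL η v < reL η a) :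
    Dec T a a := by
  have hKc : IsCompact (convexHull ℝ V) := hVf.isCompact_convexHull (𝕜 := ℝ)
  have haR : ∀ j, (a j).im = 0 := hV a ha
  have hKR := hull_real hV
  -- the real direction
  set d : Fin n → ℂ := fun j => ((η j).re : ℂ) with hd
  -- the cone
  set Ω : Set (Fin n → ℂ) := {X | ∀ v ∈ V, v ≠ a →
    ∑ j, ((X j).re - (a j).re) * ((v j).re - (a j).re) < 0} with hΩ
  have hΩo : IsOpen Ω := by
    have e : Ω = ⋂ v ∈ V, {X | v ≠ a →
        ∑ j, ((X j).re - (a j).re) * ((v j).re - (a j).re) < 0} := by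
      ext X; simp [hΩ]
    rw [e]
    refine hVf.isOpen_biInter fun v _ => ?_
    by_cases hva : v = a
    · have : {X : Fin n → ℂ | v ≠ a →
        ∑ j, ((X j).re - (a j).re) * ((v j).re - (a j).re) < 0} = univ := by
        ext X; simp [hva]
      rw [this]; exact isOpen_univ
    · have : {X : Fin n → ℂ | v ≠ a →
        ∑ j, ((X j).re - (a j).re) * ((v j).re - (a j).re) < 0} =
        {X | ∑ j, ((X j).re - (a j).re) * ((v j).re - (a j).re) < 0} := by
        ext X; simp [hva]
      rw [this]
      exact isOpen_lt (by fun_prop) continuous_const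
  have hΩc : Convex ℝ Ω := by
    intro x hx y hy s t hs ht hst v hv hva
    have h1 := hx v hv hva
    have h2 := hy v hv hva
    have e : ∑ j, (((s • x + t • y) j).re - (a j).re) * ((v j).re - (a j).re) =
        s * ∑ j, ((x j).re - (a j).re) * ((v j).re - (a j).re) +
        t * ∑ j, ((y j).re - (a j).re) * ((v j).re - (a j).re) := by
      rw [Finset.mul_sum, Finset.mul_sum, ← Finset.sum_add_distrib]
      refine Finset.sum_congr rfl fun j _ => ?_
      simp only [Pi.add_apply, Pi.smul_apply, Complex.add_re, Complex.real_smul,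
        Complex.re_ofReal_mul]
      have : t = 1 - s := by linarith
      rw [this]; ring
    rw [e]
    rcases hs.eq_or_lt with rfl | hs'
    · have : t = 1 := by linarith
      rw [this]; linarith
    · have h3 := mul_neg_of_pos_of_neg hs' h1
      have h4 := mul_nonpos_of_nonneg_of_nonpos ht h2.le
      linarith
  -- points of the cone
  have hval : ∀ X w : Fin n → ℂ, ∑ j, ((X j).re - (a j).re) * ((w j).re - (a j).re) =
      reL (fun j => (((X j).re - (a j).re : ℝ) : ℂ)) w -
        reL (fun j => (((X j).re - (a j).re : ℝ) : ℂ)) a := by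
    intro X w
    rw [reL_real (by simp), reL_real (by simp), ← Finset.sum_sub_distrib]
    refine Finset.sum_congr rfl fun j _ => ?_
    simp only [Complex.ofReal_re]; ring
  have hΩK : ∀ X ∈ Ω, ∀ w ∈ convexHull ℝ V,
      ∑ j, ((X j).re - (a j).re) * ((w j).re - (a j).re) ≤ 0 := by
    intro X hX w hw
    rw [hval]
    have := hull_le (V := V) (reL (fun j => (((X j).re - (a j).re : ℝ) : ℂ)))
      (b := reL (fun j => (((X j).re - (a j).re : ℝ) : ℂ)) a) (fun v hv => by
        by_cases hva : v = a
        · rw [hva]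
        · have := hX v hv hva
          rw [hval] at this
          linarith) w hw
    linarith
  have hle : ∀ X ∈ Ω, ∀ w ∈ convexHull ℝ V, (qf a X w).re ≤ 0 := by
    intro X hX w hw
    rw [qf_re haR (hKR w hw), Finset.sum_sub_distrib]
    have h1 := hΩK X hX w hw
    have h2 : ∑ j, 2 * ((X j).re - (a j).re) * ((w j).re - (a j).re) =
        2 * ∑ j, ((X j).re - (a j).re) * ((w j).re - (a j).re) := by
      rw [Finset.mul_sum]
      exact Finset.sum_congr rfl fun j _ => by ring
    have h3 : 0 ≤ ∑ j, ((w j).re - (a j).re) ^ 2 := Finset.sum_nonneg fun j _ => sq_nonneg _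
    rw [h2]; linarith
  -- far away point
  have hfar : ∃ X₀ ∈ Ω, Dec T a X₀ := by
    obtain ⟨R, hR0, hR⟩ : ∃ R : ℝ, 0 < R ∧ ∀ w ∈ L,
        2 * R * (reL η w - reL η a) - (∑ j, (w j - a j) ^ 2).re < 0 := by
      rcases L.eq_empty_or_nonempty with rfl | hne
      · exact ⟨1, one_pos, by simp⟩
      · obtain ⟨w₁, hw₁, hmax⟩ := hLc.exists_isMaxOn hne (continuous_reL η).continuousOn
        have hc2 : Continuous fun w : Fin n → ℂ => (∑ j, (w j - a j) ^ 2).re := by fun_prop
        obtain ⟨G, hG⟩ := hLc.exists_bound_of_continuousOn hc2.continuousOn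
        have hρ : 0 < reL η a - reL η w₁ := by linarith [hηL w₁ hw₁]
        have hG0 : 0 ≤ G := (norm_nonneg _).trans (hG w₁ hw₁)
        refine ⟨(G + 1) / (reL η a - reL η w₁), by positivity, fun w hw => ?_⟩
        have h1 : reL η w ≤ reL η w₁ := isMaxOn_iff.1 hmax w hw
        have h2 := hG w hw
        rw [Real.norm_eq_abs] at h2
        have h3 := neg_abs_le ((∑ j, (w j - a j) ^ 2).re)
        have h4 : 2 * ((G + 1) / (reL η a - reL η w₁)) * (reL η w - reL η a) ≤ -(2 * (G + 1)) := by
          have h5 : reL η w - reL η a ≤ -(reL η a - reL η w₁) := by linarith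
          calc 2 * ((G + 1) / (reL η a - reL η w₁)) * (reL η w - reL η a) ≤
                2 * ((G + 1) / (reL η a - reL η w₁)) * (-(reL η a - reL η w₁)) :=
                mul_le_mul_of_nonneg_left h5 (by positivity)
            _ = -(2 * (G + 1)) := by field_simp
        linarith
    refine ⟨a + (R : ℂ) • η, ?_, ?_⟩
    · intro v hv hva
      have h1 := hηV v hv hva
      rw [reL_real' (hV v hv), reL_real' haR] at h1
      have e : ∑ j, (((a + (R : ℂ) • η) j).re - (a j).re) * ((v j).re - (a j).re) =
          R * (∑ j, (η j).re * (v j).re - ∑ j, (η j).re * (a j).re) := by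
        rw [← Finset.sum_sub_distrib, Finset.mul_sum]
        refine Finset.sum_congr rfl fun j _ => ?_
        simp only [Pi.add_apply, Pi.smul_apply, smul_eq_mul, Complex.add_re,
          Complex.re_ofReal_mul]
        ring
      rw [e]
      exact mul_neg_of_pos_of_neg hR0 (by linarith)
    · refine Dec_of_car hTL hLc fun w hw => ?_
      have h1 := hR w hw
      have e : (qf a (a + (R : ℂ) • η) w).re =
          2 * R * (reL η w - reL η a) - (∑ j, (w j - a j) ^ 2).re := by
        rw [qf_line]
        have e1 : qf a a w = -∑ j, (w j - a j) ^ 2 := by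
          simp only [qf, ← Finset.sum_neg_distrib]
          refine Finset.sum_congr rfl fun j _ => ?_
          ring
        have e2 : ((R : ℂ) * (2 * ∑ j, η j * (w j - a j))).re =
            2 * R * (reL η w - reL η a) := by
          rw [Complex.re_ofReal_mul, reL_apply, reL_apply, ← Complex.sub_re,
            ← Finset.sum_sub_distrib]
          have : (2 * ∑ j, η j * (w j - a j)).re = 2 * (∑ j, η j * (w j - a j)).re := by
            simp
          rw [this]
          have e3 : ∑ j, η j * (w j - a j) = ∑ j, (η j * w j - η j * a j) :=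
            Finset.sum_congr rfl fun j _ => by ring
          rw [e3]; ring
        rw [e1, Complex.add_re, e2, Complex.neg_re]
        ring
      rw [e]; exact h1
  obtain ⟨X₀, hX₀, hdec₀⟩ := hfar
  have hdΩ : a + d ∈ Ω := by
    intro v hv hva
    have h1 := hηV v hv hva
    rw [reL_real' (hV v hv), reL_real' haR] at h1
    have e : ∑ j, (((a + d) j).re - (a j).re) * ((v j).re - (a j).re) =
        (∑ j, (η j).re * (v j).re - ∑ j, (η j).re * (a j).re) := by
      rw [← Finset.sum_sub_distrib]
      refine Finset.sum_congr rfl fun j _ => ?_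
      simp only [Pi.add_apply, hd, Complex.add_re, Complex.ofReal_re]
      ring
    rw [e]; linarith
  have hdecd : Dec T a (a + d) :=
    Dec_region hT hKc hΩo hΩc.isPreconnected hle hX₀ hdec₀ _ hdΩ
  refine Dec_vertex hT hKc (d := d) (B := ∑ j : Fin n, (1 + |(η j).re|) ^ 2)
    (Finset.sum_nonneg fun j _ => sq_nonneg _) hdecd ?_
  intro κ hκ0 hκ1 x hx τ hτ w hw
  rw [qf_re haR (hKR w hw)]
  have hwr := hKR w hw
  have hdw : ∑ j, (η j).re * ((w j).re - (a j).re) ≤ 0 := by
    have h1 := hull_le (V := V) (reL η) (b := reL η a) (fun v hv => by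
        by_cases hva : v = a
        · rw [hva]
        · exact (hηV v hv hva).le) w hw
    rw [reL_real' hwr, reL_real' haR] at h1
    have e : ∑ j, (η j).re * ((w j).re - (a j).re) =
        ∑ j, (η j).re * (w j).re - ∑ j, (η j).re * (a j).re := by
      rw [← Finset.sum_sub_distrib]
      exact Finset.sum_congr rfl fun j _ => by ring
    rw [e]; linarith
  have hτr : -κ ≤ τ.re := by
    rw [mem_closedBall, dist_eq_norm] at hτ
    have h1 : |(τ - 1).re| ≤ 1 + κ := (Complex.abs_re_le_norm _).trans hτ
    rw [Complex.sub_re, Complex.one_re] at h1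
    have := (abs_le.1 h1).1
    linarith
  have hxj : ∀ j, |(x j).re - (a j).re| ≤ κ := by
    intro j
    rw [mem_closedBall, dist_eq_norm] at hx
    have h1 : |((x - a) j).re| ≤ κ :=
      (Complex.abs_re_le_norm _).trans ((norm_le_pi_norm (x - a) j).trans hx)
    simpa using h1
  have hre : ∀ j, ((x + τ • d) j).re = (x j).re + τ.re * (η j).re := by
    intro j
    simp [hd, Complex.mul_re]
  simp only [hre]
  rw [Finset.sum_mul]
  rcases le_or_gt 0 τ.re with h0 | h0
  · -- the half plane part
    have e : ∑ j, (2 * ((x j).re + τ.re * (η j).re - (a j).re) * ((w j).re - (a j).re) -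
        ((w j).re - (a j).re) ^ 2) =
        ∑ j, (2 * ((x j).re - (a j).re) * ((w j).re - (a j).re) - ((w j).re - (a j).re) ^ 2) +
        2 * τ.re * ∑ j, (η j).re * ((w j).re - (a j).re) := by
      rw [Finset.mul_sum, ← Finset.sum_add_distrib]
      exact Finset.sum_congr rfl fun j _ => by ring
    rw [e]
    have h2 : 2 * τ.re * ∑ j, (η j).re * ((w j).re - (a j).re) ≤ 0 :=
      mul_nonpos_of_nonneg_of_nonpos (by positivity) hdw
    have h3 : ∑ j, (2 * ((x j).re - (a j).re) * ((w j).re - (a j).re) -
        ((w j).re - (a j).re) ^ 2) ≤ ∑ j : Fin n, (1 + |(η j).re|) ^ 2 * κ ^ 2 := by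
      refine Finset.sum_le_sum fun j _ => ?_
      have h4 : ((x j).re - (a j).re) ^ 2 ≤ κ ^ 2 := by
        rw [← sq_abs]; exact pow_le_pow_left₀ (abs_nonneg _) (hxj j) 2
      have h5 : κ ^ 2 ≤ (1 + |(η j).re|) ^ 2 * κ ^ 2 := by
        have : 1 ≤ (1 + |(η j).re|) ^ 2 := by nlinarith [abs_nonneg (η j).re]
        nlinarith [sq_nonneg κ]
      nlinarith [sq_nonneg (((x j).re - (a j).re) - ((w j).re - (a j).re))]
    linarith
  · refine Finset.sum_le_sum fun j _ => ?_
    set u := (x j).re + τ.re * (η j).re - (a j).re with hu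
    have h1 : |u| ≤ (1 + |(η j).re|) * κ := by
      have e : u = ((x j).re - (a j).re) + τ.re * (η j).re := by rw [hu]; ring
      rw [e]
      calc _ ≤ |(x j).re - (a j).re| + |τ.re * (η j).re| := abs_add_le _ _
        _ ≤ κ + κ * |(η j).re| := by
            rw [abs_mul]
            refine add_le_add (hxj j) (mul_le_mul_of_nonneg_right ?_ (abs_nonneg _))
            rw [abs_of_neg h0]; linarith
        _ = _ := by ring
    have h2 : u ^ 2 ≤ (1 + |(η j).re|) ^ 2 * κ ^ 2 := by
      rw [← mul_pow, ← sq_abs u]; exact pow_le_pow_left₀ (abs_nonneg _) h1 2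
    nlinarith [sq_nonneg (u - ((w j).re - (a j).re))]

end H721CS
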